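import Mathlib
import Pool.Graph.R_pool_sql_team_seeded_3dad9d7b.NH28.Kept.RothWirsingPoints

set_option autoImplicit false
set_option linter.unusedSectionVars false

/-!
# The part of the height outside of a finite set of places

For a linear form `b z - c` and a finite set `S` of places of `K`, the number `cnt S (b, c) z` is the
sum of the local heights `log (max (1, |z|) / |b z - c|)` of `z` at the primes of `L` which do not lie
over primes of `S`.
-/

namespace Pool.Agent.H594.WI

open NumberField IsDedekindDomain Finset Module Height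
open Pool.Agent.W180.OP (Pl av wt fv fv_apply wt_nonneg fv_support_finite nrm le_nrm nrm_pos
  exists_nrm nrm_nonneg partial_le)
open Pool.Agent.NH28 (Ov nn ab mem_ab sum_nn one_le_nn nn_ext nn_nonneg exists_below ov_unique
  sum_split height_sum prod_formula fab mem_fab nrm_support ab_nonempty fv_sum_le fv_ext)

open scoped Classical

variable {K L : Type} [Field K] [NumberField K] [Field L] [NumberField L] [Algebra K L]

/-- a linear form -/
noncomputable def lf (p : K × K) (z : L) : L := algebraMap K L p.1 * z - algebraMap K L p.2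

/-- the affine point -/
def pt (z : L) : Fin 2 → L := ![1, z]

lemma pt_ne (z : L) : pt z ≠ 0 := by
  intro h
  have := congrFun h 0
  exact one_ne_zero this

/-- the local height -/
noncomputable def lam (p : K × K) (z : L) (v : HeightOneSpectrum (𝓞 L)) : ℝ :=
  Real.log (nrm (fv v) (pt z)) - Real.log (fv v (lf p z))

/-- the part of the height outside of `S` -/
noncomputable def cnt (S : Finset (Pl K)) (p : K × K) (z : L) : ℝ :=
  ∑ᶠ v : HeightOneSpectrum (𝓞 L), if v ∈ fab L S then 0 else lam p z v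

lemma lam_support {p : K × K} {z : L} (hz : lf p z ≠ 0) :
    {v : HeightOneSpectrum (𝓞 L) | lam p z v ≠ 0}.Finite := by
  refine ((nrm_support (pt_ne z)).union (fv_support_finite hz)).subset ?_
  intro v hv
  by_contra hc
  simp only [Set.mem_union, Set.mem_ofPred_eq, not_or, not_not] at hc
  apply hv
  unfold lam
  rw [hc.1, hc.2, Real.log_one, sub_zero]

lemma cnt_eq (S : Finset (Pl K)) {p : K × K} {z : L} (T : Finset (HeightOneSpectrum (𝓞 L)))
    (hT : ∀ v, lam p z v ≠ 0 → v ∈ T) :
    cnt S p z = ∑ v ∈ T with v ∉ fab L S, lam p z v := by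
  unfold cnt
  rw [finsum_eq_sum_of_support_subset (s := T)]
  · rw [Finset.sum_filter]
    refine Finset.sum_congr rfl fun v _ => ?_
    by_cases h : v ∈ fab L S
    · rw [if_pos h, if_neg (not_not.2 h)]
    · rw [if_neg h, if_pos h]
  · intro v hv
    rw [Function.mem_support] at hv
    apply Finset.mem_coe.2
    apply hT
    intro h0
    apply hv
    rw [h0, ite_self]

/-- a good set of places for a family of linear forms -/
structure Good {n : ℕ} (S : Finset (Pl K)) (p : Fin n → K × K) : Prop where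
  inf : ∀ v : InfinitePlace K, Sum.inl v ∈ S
  le1 : ∀ v : HeightOneSpectrum (𝓞 K), Sum.inr v ∉ S → ∀ i, fv v (p i).1 ≤ 1
  le2 : ∀ v : HeightOneSpectrum (𝓞 K), Sum.inr v ∉ S → ∀ i, fv v (p i).2 ≤ 1
  det : ∀ v : HeightOneSpectrum (𝓞 K), Sum.inr v ∉ S → ∀ i j, i ≠ j →
    fv v ((p i).1 * (p j).2 - (p j).1 * (p i).2) = 1

lemma not_fab {S : Finset (Pl K)} {w : HeightOneSpectrum (𝓞 L)} (hw : w ∉ fab L S) :
    ∃ v : HeightOneSpectrum (𝓞 K), Sum.inr v ∉ S ∧ w.asIdeal.LiesOver v.asIdeal := by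
  obtain ⟨v, hv⟩ := exists_below K (Sum.inr w : Pl L)
  cases v with
  | inl v => exact hv.elim
  | inr v => exact ⟨v, fun h => hw (mem_fab.2 ⟨_, h, hv⟩), hv⟩

/-- the nonarchimedean inequality -/
lemma fv_add_le (w : HeightOneSpectrum (𝓞 L)) (x y : L) : fv w (x + y) ≤ max (fv w x) (fv w y) :=
  FinitePlace.add_le (FinitePlace.mk w) x y

lemma fv_sub_le (w : HeightOneSpectrum (𝓞 L)) (x y : L) : fv w (x - y) ≤ max (fv w x) (fv w y) := by
  have h := fv_add_le w x (-y)
  rwa [← sub_eq_add_neg, AbsoluteValue.map_neg] at h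

lemma fv_algebraMap_le {v : HeightOneSpectrum (𝓞 K)} {w : HeightOneSpectrum (𝓞 L)}
    (h : w.asIdeal.LiesOver v.asIdeal) {a : K} (ha : fv v a ≤ 1) : fv w (algebraMap K L a) ≤ 1 := by
  rw [fv_ext v w h]
  exact pow_le_one₀ ((fv v).nonneg _) ha

lemma fv_algebraMap_eq {v : HeightOneSpectrum (𝓞 K)} {w : HeightOneSpectrum (𝓞 L)}
    (h : w.asIdeal.LiesOver v.asIdeal) {a : K} (ha : fv v a = 1) : fv w (algebraMap K L a) = 1 := by
  rw [fv_ext v w h, ha, one_pow]

lemma one_le_nrm (f : AbsoluteValue L ℝ) (z : L) : 1 ≤ nrm f (pt z) := by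
  have := le_nrm f (pt z) 0
  have e : pt z 0 = 1 := rfl
  rwa [e, map_one] at this

lemma le_nrm' (f : AbsoluteValue L ℝ) (z : L) : f z ≤ nrm f (pt z) := le_nrm f (pt z) 1

section good

variable {n : ℕ} {S : Finset (Pl K)} {p : Fin n → K × K}

lemma lf_le (hS : Good S p) {w : HeightOneSpectrum (𝓞 L)} (hw : w ∉ fab L S) (i : Fin n) (z : L) :
    fv w (lf (p i) z) ≤ nrm (fv w) (pt z) := by
  obtain ⟨v, hv, hvw⟩ := not_fab hw
  unfold lf
  have h0 := one_le_nrm (fv w) z
  refine (fv_sub_le w _ _).trans (max_le ?_ ?_)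
  · rw [map_mul]
    have h1 := fv_algebraMap_le hvw (hS.le1 v hv i)
    calc fv w (algebraMap K L (p i).1) * fv w z ≤ 1 * nrm (fv w) (pt z) :=
          mul_le_mul h1 (le_nrm' _ z) ((fv w).nonneg _) zero_le_one
      _ = _ := one_mul _
  · exact (fv_algebraMap_le hvw (hS.le2 v hv i)).trans h0

lemma lam_nonneg (hS : Good S p) {w : HeightOneSpectrum (𝓞 L)} (hw : w ∉ fab L S) (i : Fin n)
    {z : L} (hz : lf (p i) z ≠ 0) : 0 ≤ lam (p i) z w := by
  unfold lam
  rw [sub_nonneg]
  exact Real.log_le_log ((fv w).pos hz) (lf_le hS hw i z)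

/-- at most one of the local heights is not zero -/
lemma lam_zero (hS : Good S p) {w : HeightOneSpectrum (𝓞 L)} (hw : w ∉ fab L S) {i j : Fin n}
    (hij : i ≠ j) {z : L} :
    lam (p i) z w = 0 ∨ lam (p j) z w = 0 := by
  obtain ⟨v, hv, hvw⟩ := not_fab hw
  have hdet := fv_algebraMap_eq (L := L) hvw (hS.det v hv i j hij)
  have e1 : algebraMap K L ((p i).1 * (p j).2 - (p j).1 * (p i).2) * 1 =
      algebraMap K L (p j).1 * lf (p i) z - algebraMap K L (p i).1 * lf (p j) z := by
    unfold lf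
    simp only [map_sub, map_mul]
    ring
  have e2 : algebraMap K L ((p i).1 * (p j).2 - (p j).1 * (p i).2) * z =
      algebraMap K L (p j).2 * lf (p i) z - algebraMap K L (p i).2 * lf (p j) z := by
    unfold lf
    simp only [map_sub, map_mul]
    ring
  have key : ∀ a b : K, fv v a ≤ 1 → fv v b ≤ 1 →
      fv w (algebraMap K L a * lf (p i) z - algebraMap K L b * lf (p j) z) ≤
        max (fv w (lf (p i) z)) (fv w (lf (p j) z)) := by
    intro a b ha hb
    refine (fv_sub_le w _ _).trans (max_le_max ?_ ?_)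
    · rw [map_mul]
      exact mul_le_of_le_one_left ((fv w).nonneg _) (fv_algebraMap_le hvw ha)
    · rw [map_mul]
      exact mul_le_of_le_one_left ((fv w).nonneg _) (fv_algebraMap_le hvw hb)
  have h3 : nrm (fv w) (pt z) ≤ max (fv w (lf (p i) z)) (fv w (lf (p j) z)) := by
    obtain ⟨s, hs⟩ := exists_nrm (fv w) (by norm_num : 0 < 2) (pt z)
    rw [← hs]
    fin_cases s
    · have h4 := key _ _ (hS.le1 v hv j) (hS.le1 v hv i)
      rw [← e1, map_mul, hdet, one_mul] at h4
      exact h4
    · have h4 := key _ _ (hS.le2 v hv j) (hS.le2 v hv i)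
      rw [← e2, map_mul, hdet, one_mul] at h4
      exact h4
  have hi := lf_le hS hw i z
  have hj := lf_le hS hw j z
  rcases le_max_iff.1 h3 with h | h
  · left
    unfold lam
    rw [le_antisymm hi h, sub_self]
  · right
    unfold lam
    rw [le_antisymm hj h, sub_self]

lemma lam_single (hS : Good S p) {w : HeightOneSpectrum (𝓞 L)} (hw : w ∉ fab L S)
    {z : L} (hz : ∀ i, lf (p i) z ≠ 0) (μ : Fin n → ℤ) :
    ∑ i, (max 0 (-μ i) : ℤ) * lam (p i) z w ≤ max 0 (∑ i, -(μ i : ℝ) * lam (p i) z w) := by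
  by_cases h0 : ∃ i, lam (p i) z w ≠ 0
  · obtain ⟨i, hi⟩ := h0
    have hz' : ∀ j, j ≠ i → lam (p j) z w = 0 := fun j hj =>
      (lam_zero hS hw hj).resolve_right hi
    rw [Finset.sum_eq_single i (fun j _ hj => by rw [hz' j hj, mul_zero])
      (fun h => absurd (Finset.mem_univ i) h),
      Finset.sum_eq_single i (fun j _ hj => by rw [hz' j hj, mul_zero])
      (fun h => absurd (Finset.mem_univ i) h)]
    have h1 := lam_nonneg hS hw i (hz i)
    push_cast
    rcases le_total (μ i) 0 with hm | hm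
    · have hm' : (μ i : ℝ) ≤ 0 := by exact_mod_cast hm
      rw [max_eq_right (by linarith)]
      exact le_max_right _ _
    · have hm' : (0 : ℝ) ≤ μ i := by exact_mod_cast hm
      rw [max_eq_left (by linarith), zero_mul]
      exact le_max_left _ _
  · push Not at h0
    simp only [h0, mul_zero, Finset.sum_const_zero, max_self, le_refl]

/-- the function -/
noncomputable def val (p : Fin n → K × K) (e : K) (μ : Fin n → ℤ) (z : L) : L :=
  algebraMap K L e * ∏ i, lf (p i) z ^ μ i

lemma log_val {w : HeightOneSpectrum (𝓞 L)} {z : L} (hz : ∀ i, lf (p i) z ≠ 0) (μ : Fin n → ℤ)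
    (hμ : ∑ i, μ i = 0) {e : K} (he : fv w (algebraMap K L e) = 1) :
    Real.log (fv w (val p e μ z)) = ∑ i, -(μ i : ℝ) * lam (p i) z w := by
  unfold val
  rw [map_mul, he, one_mul, map_prod, Real.log_prod]
  · have h1 : ∀ i, Real.log (fv w (lf (p i) z ^ μ i)) =
        (μ i : ℝ) * Real.log (nrm (fv w) (pt z)) + -(μ i : ℝ) * lam (p i) z w := by
      intro i
      rw [map_zpow₀, Real.log_zpow]
      unfold lam
      ring
    rw [Finset.sum_congr rfl fun i _ => h1 i, Finset.sum_add_distrib, ← Finset.sum_mul]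
    have h2 : (∑ i, (μ i : ℝ)) = 0 := by exact_mod_cast hμ
    rw [h2, zero_mul, zero_add]
  · intro i _
    exact ((fv w).pos (zpow_ne_zero _ (hz i))).ne'

/-- **The height of a value.** -/
theorem height_val (hS : Good S p) {z : L} (hz : ∀ i, lf (p i) z ≠ 0) (μ : Fin n → ℤ)
    (hμ : ∑ i, μ i = 0) {e : K} (he : ∀ v : HeightOneSpectrum (𝓞 K), Sum.inr v ∉ S → fv v e = 1) :
    ∑ i, (max 0 (-μ i) : ℤ) * cnt S (p i) z ≤ logHeight (pt (val p e μ z)) := by
  have hfin : (⋃ i : Fin n, {v : HeightOneSpectrum (𝓞 L) | lam (p i) z v ≠ 0}).Finite :=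
    Set.finite_iUnion fun i => lam_support (hz i)
  let T := hfin.toFinset
  have hT : ∀ i v, lam (p i) z v ≠ 0 → v ∈ T := by
    intro i v hv
    rw [Set.Finite.mem_toFinset]
    exact Set.mem_iUnion.2 ⟨i, hv⟩
  have h1 := partial_le (pt (val p e μ z)) 0 rfl ∅ (T.filter fun v => v ∉ fab L S)
  rw [Finset.sum_empty, zero_add] at h1
  refine le_trans ?_ h1
  simp only [fun i => cnt_eq S T (hT i), Finset.mul_sum]
  rw [Finset.sum_comm]
  refine Finset.sum_le_sum fun w hw => ?_
  have hw' := (Finset.mem_filter.1 hw).2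
  refine (lam_single hS hw' hz μ).trans ?_
  obtain ⟨v, hv, hvw⟩ := not_fab hw'
  have h2 := log_val (w := w) hz μ hμ (fv_algebraMap_eq (L := L) hvw (he v hv))
  refine max_le (Real.log_nonneg (one_le_nrm _ _)) ?_
  rw [← h2]
  refine Real.log_le_log ?_ (le_nrm' _ _)
  refine (fv w).pos ?_
  intro h0
  have h3 := fv_algebraMap_eq (L := L) hvw (he v hv)
  unfold val at h0
  rcases mul_eq_zero.1 h0 with h | h
  · rw [h, map_zero] at h3
    exact zero_ne_one h3
  · obtain ⟨i, -, hi⟩ := Finset.prod_eq_zero_iff.1 h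
    exact zpow_ne_zero _ (hz i) hi

lemma cnt_nonneg (hS : Good S p) {z : L} (i : Fin n) (hz : lf (p i) z ≠ 0) :
    0 ≤ cnt S (p i) z := by
  rw [cnt_eq S (lam_support hz).toFinset (fun v hv => (Set.Finite.mem_toFinset _).2 hv)]
  exact Finset.sum_nonneg fun w hw => lam_nonneg hS (Finset.mem_filter.1 hw).2 i hz

end good

end Pool.Agent.H594.WI
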