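import Mathlib
import Pool.Agent.H594.WI.Loc

set_option autoImplicit false
set_option linter.unusedSectionVars false

/-!
# Wirsing's theorem for the part of the height outside of a finite set of places
-/

namespace Pool.Agent.H594.WI

open NumberField IsDedekindDomain Finset Module Height
open Pool.Agent.W180.OP (Pl av wt fv fv_apply wt_nonneg fv_support_finite nrm le_nrm nrm_pos
  exists_nrm nrm_nonneg partial_le)
open Pool.Agent.NH28 (Ov nn ab mem_ab sum_nn one_le_nn nn_ext nn_nonneg exists_below ov_unique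
  sum_split height_sum prod_formula fab mem_fab nrm_support ab_nonempty fv_sum_le fv_ext)
open Pool.Agent.Results.MP_651af7_nt.RothWirsingPoints (On Above absv weight weil proximity height
  ResidueField)

open scoped Classical

section forms

variable {K : Type} [Field K]

/-- the homogeneous linear form -/
noncomputable def hf (p : K × K) : MvPolynomial (Fin 2) K :=
  MvPolynomial.C p.1 * MvPolynomial.X 1 - MvPolynomial.C p.2 * MvPolynomial.X 0

lemma hf_homog (p : K × K) : (hf p).IsHomogeneous 1 := by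
  unfold hf
  exact (MvPolynomial.isHomogeneous_C_mul_X _ _).sub (MvPolynomial.isHomogeneous_C_mul_X _ _)

lemma aeval_hf {L : Type} [Field L] [Algebra K L] (p : K × K) (x : Fin 2 → L) :
    MvPolynomial.aeval x (hf p) = algebraMap K L p.1 * x 1 - algebraMap K L p.2 * x 0 := by
  unfold hf
  simp only [map_sub, map_mul, MvPolynomial.aeval_C, MvPolynomial.aeval_X]

/-- the transversal form -/
noncomputable def tf (p : K × K) : MvPolynomial (Fin 2) K :=
  if p.1 = 0 then MvPolynomial.X 1 else MvPolynomial.X 0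

lemma tf_homog (p : K × K) : (tf p).IsHomogeneous 1 := by
  unfold tf
  split_ifs
  · exact MvPolynomial.isHomogeneous_X _ _
  · exact MvPolynomial.isHomogeneous_X _ _

lemma fin2_zero {L : Type} [Field L] {x : Fin 2 → L} (h0 : x 0 = 0) (h1 : x 1 = 0) : x = 0 := by
  funext i
  fin_cases i
  · exact h0
  · exact h1

lemma tf_cut {L : Type} [Field L] [Algebra K L] {p : K × K} (hp : p ≠ 0) (x : Fin 2 → L)
    (h1 : MvPolynomial.aeval x (hf p) = 0) (h2 : MvPolynomial.aeval x (tf p) = 0) : x = 0 := by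
  rw [aeval_hf] at h1
  unfold tf at h2
  split_ifs at h2 with h
  · rw [MvPolynomial.aeval_X] at h2
    rw [h2, mul_zero, zero_sub, neg_eq_zero] at h1
    have h3 : p.2 ≠ 0 := fun h3 => hp (Prod.ext h h3)
    rcases mul_eq_zero.1 h1 with h4 | h4
    · exact absurd ((map_eq_zero _).1 h4) h3
    · exact fin2_zero h4 h2
  · rw [MvPolynomial.aeval_X] at h2
    rw [h2, mul_zero, sub_zero] at h1
    rcases mul_eq_zero.1 h1 with h4 | h4
    · exact absurd ((map_eq_zero _).1 h4) h
    · exact fin2_zero h2 h4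

lemma det_cut {L : Type} [Field L] [Algebra K L] {p q : K × K} (hpq : p.1 * q.2 - q.1 * p.2 ≠ 0)
    (x : Fin 2 → L) (h1 : MvPolynomial.aeval x (hf p) = 0)
    (h2 : MvPolynomial.aeval x (hf q) = 0) : x = 0 := by
  rw [aeval_hf] at h1 h2
  have h3 : algebraMap K L (p.1 * q.2 - q.1 * p.2) ≠ 0 := (map_ne_zero _).2 hpq
  have e1 : algebraMap K L (p.1 * q.2 - q.1 * p.2) * x 0 = 0 := by
    simp only [map_sub, map_mul]
    linear_combination (algebraMap K L q.1) * h1 - (algebraMap K L p.1) * h2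
  have e2 : algebraMap K L (p.1 * q.2 - q.1 * p.2) * x 1 = 0 := by
    simp only [map_sub, map_mul]
    linear_combination (algebraMap K L q.2) * h1 - (algebraMap K L p.2) * h2
  exact fin2_zero ((mul_eq_zero.1 e1).resolve_left h3) ((mul_eq_zero.1 e2).resolve_left h3)

lemma trdeg_empty (G : Fin 0 → MvPolynomial (Fin 2) K) :
    Algebra.trdeg K (MvPolynomial (Fin 2) K ⧸ Ideal.span (Set.range G)) = (1 : ℕ) + 1 := by
  have h1 : Ideal.span (Set.range G) = ⊥ := by
    rw [Set.range_eq_empty, Ideal.span_empty]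
  have e : (MvPolynomial (Fin 2) K ⧸ Ideal.span (Set.range G)) ≃ₐ[K] MvPolynomial (Fin 2) K :=
    (Ideal.quotientEquivAlgOfEq K h1).trans (AlgEquiv.quotientBot K _)
  rw [e.trdeg_eq, MvPolynomial.trdeg_of_isDomain]
  simp
  norm_num

lemma prime_empty (G : Fin 0 → MvPolynomial (Fin 2) K) : (Ideal.span (Set.range G)).IsPrime := by
  have h1 : Ideal.span (Set.range G) = ⊥ := by
    rw [Set.range_eq_empty, Ideal.span_empty]
  rw [h1]
  exact Ideal.isPrime_bot

/-- dehomogenised form -/
noncomputable def dh (Z : MvPolynomial (Fin 2) K) : Polynomial K :=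
  MvPolynomial.aeval ![1, Polynomial.X] Z

lemma dh_eval {L : Type} [Field L] [Algebra K L] (Z : MvPolynomial (Fin 2) K) (z : L) :
    Polynomial.aeval z (dh Z) = MvPolynomial.aeval (![1, z] : Fin 2 → L) Z := by
  unfold dh
  have h : ((Polynomial.aeval z).comp (MvPolynomial.aeval (R := K) (![1, Polynomial.X] : Fin 2 → Polynomial K)) :
      MvPolynomial (Fin 2) K →ₐ[K] L) = MvPolynomial.aeval (![1, z] : Fin 2 → L) := by
    ext i
    fin_cases i <;> simp
  exact congrArg (fun f : MvPolynomial (Fin 2) K →ₐ[K] L => f Z) h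


lemma dh_ne [CharZero K] {Z : MvPolynomial (Fin 2) K} {t : ℕ} (hZ : Z.IsHomogeneous t)
    (h0 : Z ≠ 0) : dh Z ≠ 0 := by
  intro h
  have h1 : ∀ z : K, MvPolynomial.eval (![1, z] : Fin 2 → K) Z = 0 := by
    intro z
    have h2 := dh_eval Z z
    rw [h, map_zero] at h2
    rw [h2, MvPolynomial.aeval_eq_eval]
  have h2 : MvPolynomial.X 0 * Z = 0 := by
    apply MvPolynomial.funext
    intro x
    rw [map_mul, MvPolynomial.eval_X, map_zero]
    by_cases hx : x 0 = 0
    · rw [hx, zero_mul]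
    · have h3 : x = x 0 • (![1, x 1 / x 0] : Fin 2 → K) := by
        funext i
        fin_cases i
        · simp
        · simp [mul_div_cancel₀ _ hx]
      rw [h3, Pool.Agent.W180.OP.eval_smul_hom _ hZ, h1, mul_zero, mul_zero]
  exact h0 ((mul_eq_zero.1 h2).resolve_left (MvPolynomial.X_ne_zero 0))

end forms

variable {K L : Type} [Field K] [NumberField K] [Field L] [NumberField L] [Algebra K L]

/-- the local height at any place -/
noncomputable def lamw (p : K × K) (z : L) (w : Pl L) : ℝ :=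
  Real.log (nrm (av w) (pt z)) - Real.log (av w (lf p z))

/-- the height is the sum of the part inside `S` and the part outside of `S` -/
theorem total {S : Finset (Pl K)} (hS : ∀ v : InfinitePlace K, Sum.inl v ∈ S) {p : K × K} {z : L}
    (hz : lf p z ≠ 0) :
    cnt S p z = logHeight (pt z) - ∑ v ∈ S, ∑ w ∈ ab L v, wt w * lamw p z w := by
  have hf1 := nrm_support (pt_ne z)
  have hf2 := fv_support_finite hz
  let T : Finset (HeightOneSpectrum (𝓞 L)) := hf1.toFinset ∪ hf2.toFinset ∪ fab L S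
  have hT1 : ∀ v, nrm (fv v) (pt z) ≠ 1 → v ∈ T := fun v hv =>
    Finset.mem_union_left _ (Finset.mem_union_left _ ((Set.Finite.mem_toFinset _).2 hv))
  have hT2 : ∀ v, fv v (lf p z) ≠ 1 → v ∈ T := fun v hv =>
    Finset.mem_union_left _ (Finset.mem_union_right _ ((Set.Finite.mem_toFinset _).2 hv))
  have hT3 : ∀ v, lam p z v ≠ 0 → v ∈ T := by
    intro v hv
    by_contra hc
    have h1 : nrm (fv v) (pt z) = 1 := by
      by_contra h
      exact hc (hT1 v h)
    have h2 : fv v (lf p z) = 1 := by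
      by_contra h
      exact hc (hT2 v h)
    apply hv
    unfold lam
    rw [h1, h2, Real.log_one, sub_zero]
  have h1 := height_sum (pt_ne z) T hT1
  have h2 := prod_formula hz T hT2
  rw [cnt_eq S T hT3, sum_split S hS]
  have h3 : ∑ v ∈ T, lam p z v = ∑ v ∈ T with v ∉ fab L S, lam p z v + ∑ v ∈ fab L S, lam p z v := by
    rw [← Finset.sum_filter_add_sum_filter_not T (fun v => v ∈ fab L S), add_comm]
    congr 1
    refine Finset.sum_congr ?_ fun _ _ => rfl
    ext v
    rw [Finset.mem_filter]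
    exact ⟨fun h => h.2, fun h => ⟨Finset.mem_union_right _ h, h⟩⟩
  have h4 : ∑ v ∈ T, lam p z v = ∑ v ∈ T, Real.log (nrm (fv v) (pt z)) -
      ∑ v ∈ T, Real.log (fv v (lf p z)) := by
    rw [← Finset.sum_sub_distrib]
    rfl
  have h5 : ∑ w : InfinitePlace L, wt (Sum.inl w : Pl L) * lamw p z (Sum.inl w) =
      ∑ w : InfinitePlace L, (w.mult : ℝ) * Real.log (nrm w.1 (pt z)) -
        ∑ w : InfinitePlace L, (w.mult : ℝ) * Real.log (w (lf p z)) := by
    rw [← Finset.sum_sub_distrib]
    refine Finset.sum_congr rfl fun w _ => ?_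
    show (w.mult : ℝ) * (_ - _) = _
    rw [mul_sub]
    rfl
  have h6 : ∑ w ∈ fab L S, wt (Sum.inr w : Pl L) * lamw p z (Sum.inr w) =
      ∑ w ∈ fab L S, lam p z w := by
    refine Finset.sum_congr rfl fun w _ => ?_
    show (1 : ℝ) * _ = _
    rw [one_mul]
    rfl
  rw [h5, h6]
  linarith

/-- the local heights are bounded from below -/
theorem lamw_low {K : Type} [Field K] [NumberField K] (p : K × K) (r : ℕ) : ∃ W : ℝ, 0 ≤ W ∧
    ∀ (L : Type) [Field L] [NumberField L] [Algebra K L], finrank K L ≤ r → ∀ z : L,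
      lf p z ≠ 0 → ∀ w : Pl L, -W ≤ wt w * lamw p z w := by
  obtain ⟨W, hW0, hW⟩ := Pool.Agent.NH28.lamY_low (K := K) (n := 2) (q := 1) (ν := 1) le_rfl r
    (fun _ _ => hf p) (fun _ => 1) (fun _ => le_rfl) (fun _ _ => hf_homog p)
  refine ⟨W, hW0, ?_⟩
  intro L _ _ _ hr z hz w
  have he : MvPolynomial.aeval (pt z) (hf p) = lf p z := by
    rw [aeval_hf]
    show algebraMap K L p.1 * z - algebraMap K L p.2 * 1 = _
    rw [mul_one]
    rfl
  have h1 := hW L hr (pt z) (pt_ne z) (fun _ _ => by rw [he]; exact hz) w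
  refine h1.trans (le_of_eq ?_)
  congr 1
  rw [Fin.sum_univ_one]
  unfold Pool.Agent.NH28.lamY lamw
  simp only [he, pow_one, Nat.cast_one, div_one, ciSup_unique]
  rw [Real.log_div (nrm_pos _ (pt_ne z)).ne' ((av w).pos hz).ne']

/-- an upper bound for the part of the height outside of `S` -/
theorem cnt_le {K : Type} [Field K] [NumberField K] (S : Finset (Pl K))
    (hS : ∀ v : InfinitePlace K, Sum.inl v ∈ S) (p : K × K) (r : ℕ) : ∃ C : ℝ, 0 ≤ C ∧
    ∀ (L : Type) [Field L] [NumberField L] [Algebra K L], finrank K L ≤ r → ∀ z : L,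
      lf p z ≠ 0 → cnt S p z ≤ logHeight (pt z) + C := by
  obtain ⟨W, hW0, hW⟩ := lamw_low p r
  refine ⟨S.card * (r * W), by positivity, ?_⟩
  intro L _ _ _ hr z hz
  rw [total hS hz, sub_eq_add_neg, add_le_add_iff_left, ← Finset.sum_neg_distrib, ← nsmul_eq_mul,
    ← Finset.sum_const]
  refine Finset.sum_le_sum fun v _ => ?_
  rw [← Finset.sum_neg_distrib]
  have h1 : ∑ w ∈ ab L v, -(wt w * lamw p z w) ≤ ∑ w ∈ ab L v, W :=
    Finset.sum_le_sum fun w _ => by
      have := hW L hr z hz w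
      linarith
  refine h1.trans ?_
  rw [Finset.sum_const, nsmul_eq_mul]
  refine mul_le_mul_of_nonneg_right ?_ hW0
  exact_mod_cast (Pool.Agent.NH28.card_ab_le L v).trans hr

/-- **Wirsing's theorem.** -/
theorem wirsing {K : Type} [Field K] [NumberField K] {q : ℕ} (p : Fin q → K × K)
    (hp0 : ∀ i, p i ≠ 0) (hp : ∀ i j, i ≠ j → (p i).1 * (p j).2 - (p j).1 * (p i).2 ≠ 0)
    (r : ℕ) (hr : 1 ≤ r) (ε : ℝ) (hε : 0 < ε) :
    ∃ P : Polynomial K, P ≠ 0 ∧ ∀ S : Finset (Pl K), (∀ v : InfinitePlace K, Sum.inl v ∈ S) →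
      ∃ C : ℝ, 0 ≤ C ∧ ∀ (L : Type) [Field L] [NumberField L] [Algebra K L], finrank K L ≤ r →
        ∀ z : L, IntermediateField.adjoin K {z} = ⊤ → Polynomial.aeval z P ≠ 0 →
        (∀ i, lf (p i) z ≠ 0) →
        (q - (2 * r + ε)) * logHeight (pt z) - C * finrank ℚ L ≤ ∑ i, cnt S (p i) z := by
  obtain ⟨Z, hZ0, ⟨t, hZt⟩, hmain⟩ := Pool.Agent.Results.MP_651af7_nt.RothWirsingPoints.result K
    0 2 q 1 r le_rfl hr (fun i => i.elim0) (fun i => i.elim0) (fun i => i.elim0)
    (prime_empty _) (by rw [trdeg_empty]) (fun i _ => hf (p i)) (fun _ => 1) (fun _ => le_rfl)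
    (fun i _ => hf_homog (p i)) (fun i => tf (p i)) (fun _ => 1) (fun _ => le_rfl)
    (fun i => tf_homog (p i))
    (fun i L _ _ x _ h2 h3 => tf_cut (hp0 i) x (h2 0) h3)
    (fun i j hij L _ _ x _ h2 h3 => det_cut (hp i j hij) x (h2 0) (h3 0)) ε hε
  have hZ : Z ≠ 0 := by
    rintro rfl
    exact hZ0 (Ideal.zero_mem _)
  refine ⟨dh Z, dh_ne hZt hZ, fun S hS => ?_⟩
  obtain ⟨C, hC⟩ := hmain S.toRight
  refine ⟨max C 0, le_max_right _ _, ?_⟩
  intro L _ _ _ hrL z hz hPz hlf
  have hres : ResidueField K (pt z) := by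
    unfold ResidueField
    rw [eq_top_iff, ← hz]
    refine IntermediateField.adjoin.mono _ _ _ ?_
    intro y hy
    rw [Set.mem_singleton_iff] at hy
    refine ⟨1, 0, ?_⟩
    rw [hy]
    show z = z / 1
    rw [div_one]
  have hZz : MvPolynomial.aeval (pt z) Z ≠ 0 := by
    rw [dh_eval] at hPz
    exact hPz
  let T : Finset (Pl L) := S.biUnion fun v => ab L v
  have hT : ∀ w ∈ T, Above S.toRight w := by
    intro w hw
    obtain ⟨v, hv, hvw⟩ := Finset.mem_biUnion.1 hw
    rw [mem_ab] at hvw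
    cases w with
    | inl w => trivial
    | inr w =>
      cases v with
      | inl v => exact hvw.elim
      | inr v => exact ⟨v, Finset.mem_toRight.2 hv, hvw⟩
  have h1 := (hC L hrL (pt z) (pt_ne z) hres (fun i => i.elim0) hZz T hT).2.2.2
  have hN : (0 : ℝ) < finrank ℚ L := by exact_mod_cast (finrank_pos : 0 < finrank ℚ L)
  have hk : Pool.Agent.Results.MP_651af7_nt.RothWirsingPoints.k 1 r = 2 * r := by
    unfold Pool.Agent.Results.MP_651af7_nt.RothWirsingPoints.k
    norm_num
  have hprox : proximity T (fun _ => 1) (fun (i : Fin q) (_ : Fin 1) => hf (p i)) (fun _ => 1)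
      (pt z) * finrank ℚ L = ∑ i, ∑ v ∈ S, ∑ w ∈ ab L v, wt w * lamw (p i) z w := by
    unfold proximity
    rw [div_mul_cancel₀ _ hN.ne']
    have h2 : ∀ w : Pl L, (1 : ℝ) * (weight w * ∑ i, weil w 1 (fun _ : Fin 1 => hf (p i)) (pt z) /
        ((1 : ℕ) : ℝ)) = ∑ i, wt w * lamw (p i) z w := by
      intro w
      have e1 : weight w = wt w := by cases w <;> rfl
      rw [one_mul, e1, Finset.mul_sum]
      refine Finset.sum_congr rfl fun i _ => ?_
      congr 1
      have he : MvPolynomial.aeval (pt z) (hf (p i)) = lf (p i) z := by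
        rw [aeval_hf]
        show algebraMap K L (p i).1 * z - algebraMap K L (p i).2 * 1 = _
        rw [mul_one]
        rfl
      have e2 : ∀ x : L, absv w x = av w x := by
        intro x
        cases w <;> rfl
      unfold weil
      simp only [he, e2, pow_one, Nat.cast_one, div_one, ciSup_unique]
      have e3 : (⨆ j, av w (pt z j)) = nrm (av w) (pt z) := rfl
      rw [e3, Real.log_div (nrm_pos _ (pt_ne z)).ne' ((av w).pos (hlf i)).ne']
      rfl
    rw [Finset.sum_congr rfl fun w _ => h2 w, Finset.sum_comm]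
    refine Finset.sum_congr rfl fun i _ => ?_
    rw [Finset.sum_biUnion]
    intro v _ v' _ hne
    rw [Function.onFun, Finset.disjoint_left]
    intro w hw hw'
    exact hne (ov_unique (mem_ab.1 hw) (mem_ab.1 hw'))
  have h3 : ∑ i, cnt S (p i) z = q * logHeight (pt z) -
      ∑ i, ∑ v ∈ S, ∑ w ∈ ab L v, wt w * lamw (p i) z w := by
    rw [Finset.sum_congr rfl fun i _ => total hS (hlf i), Finset.sum_sub_distrib, Finset.sum_const,
      Finset.card_univ, Fintype.card_fin, nsmul_eq_mul]
  rw [h3, ← hprox]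
  have h4 := mul_le_mul_of_nonneg_right h1 hN.le
  rw [hk] at h4
  have h5 : ((2 * r + ε) * height (pt z) + C) * finrank ℚ L =
      (2 * r + ε) * logHeight (pt z) + C * finrank ℚ L := by
    unfold height
    field_simp
  rw [h5] at h4
  have h6 : C * finrank ℚ L ≤ max C 0 * finrank ℚ L :=
    mul_le_mul_of_nonneg_right (le_max_left _ _) hN.le
  linarith

end Pool.Agent.H594.WI
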