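import Mathlib
import Pool.Agent.H594.WI.Wir
import Pool.Agent.H594.KP.Units

set_option autoImplicit false
set_option linter.unusedSectionVars false

/-!
# Heights of the values of rational functions modulo a group of finite rank
-/

namespace Pool.Agent.H594.WI

open NumberField IsDedekindDomain Finset Module Height
open Pool.Agent.W180.OP (Pl av wt fv fv_support_finite nrm)
open Pool.Agent.H594.ML
open Pool.Agent.Helper259.AbsHt Pool.Agent.Y215.SK Pool.Agent.Y215.AF

open scoped Classical

/-- the numbers of degree at most `d` over `K` -/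
def DegQ (K : IntermediateField ℚ Qbar) (d : ℕ) : Set Qbar :=
  {z | ∃ P : Polynomial Qbar, P ≠ 0 ∧ P.natDegree ≤ d ∧ (∀ i, P.coeff i ∈ K) ∧ P.eval z = 0}

/-- the field generated by a number -/
noncomputable abbrev EL (F : IntermediateField ℚ Qbar) (z : Qbar) : IntermediateField F Qbar :=
  IntermediateField.adjoin F {z}

instance algQ' (F : IntermediateField ℚ Qbar) : Algebra.IsAlgebraic F Qbar := by
  have : Algebra.IsAlgebraic ℚ Qbar := AlgebraicClosure.isAlgebraic ℚ
  exact Algebra.IsAlgebraic.tower_top (K := ℚ) F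

variable (F : IntermediateField ℚ Qbar) [NumberField F]

instance finEL (z : Qbar) : FiniteDimensional F (EL F z) :=
  IntermediateField.adjoin.finiteDimensional ((Algebra.IsAlgebraic.isAlgebraic z).isIntegral)

instance nfEL (z : Qbar) : NumberField (EL F z) where
  to_charZero := inferInstance
  to_finiteDimensional := Module.Finite.trans F (EL F z)

/-- the generator -/
noncomputable def ge (z : Qbar) : EL F z := ⟨z, IntermediateField.mem_adjoin_simple_self F z⟩

lemma adjoin_ge (z : Qbar) : IntermediateField.adjoin F {ge F z} = ⊤ := by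
  apply IntermediateField.lift_injective (EL F z)
  rw [IntermediateField.lift_adjoin_simple, IntermediateField.lift_top]
  rfl

lemma finrank_EL {K : IntermediateField ℚ Qbar} (hK : K ≤ F) {d : ℕ} {z : Qbar}
    (hz : z ∈ DegQ K d) : finrank F (EL F z) ≤ d := by
  obtain ⟨P, hP0, hPd, hPK, hPz⟩ := hz
  have hint : IsIntegral F z := (Algebra.IsAlgebraic.isAlgebraic z).isIntegral
  rw [IntermediateField.adjoin.finrank hint]
  obtain ⟨P', hP'⟩ := lift_poly F P (fun i => hK (hPK i))
  have h1 : P' ≠ 0 := by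
    rintro rfl
    rw [Polynomial.map_zero] at hP'
    exact hP0 hP'.symm
  have h2 : Polynomial.aeval z P' = 0 := by
    rw [← Polynomial.eval_map_algebraMap, hP', hPz]
  have h3 := Polynomial.natDegree_le_natDegree (minpoly.degree_le_of_ne_zero F z h1 h2)
  refine h3.trans ?_
  rw [← hP', Polynomial.natDegree_map] at hPd
  exact hPd

/-- the height in the field generated by the number -/
lemma h1_pt (z : Qbar) (y : EL F z) :
    logHeight (pt y) = finrank ℚ (EL F z) * h1 (y : Qbar) := by
  have hN : (0 : ℝ) < finrank ℚ (EL F z) := by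
    exact_mod_cast (finrank_pos : 0 < finrank ℚ (EL F z))
  have e1 := absLogHeight_eq (EL F z) (algebraMap (EL F z) Qbar) (pt y)
  have e2 : absLogHeight (fun i => algebraMap (EL F z) Qbar (pt y i)) = h1 (y : Qbar) := by
    unfold h1
    apply le_antisymm
    · have h := absLogHeight_comp_le (![1, 0] : Fin 2 → Fin 2) (![(y : Qbar), 1] : Fin 2 → Qbar)
      refine le_trans (le_of_eq ?_) h
      congr 1
      funext i
      fin_cases i
      · exact map_one _
      · rfl
    · have h := absLogHeight_comp_le (![1, 0] : Fin 2 → Fin 2)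
        (fun i => algebraMap (EL F z) Qbar (pt y i))
      refine le_trans (le_of_eq ?_) h
      congr 1
      funext i
      fin_cases i
      · rfl
      · exact (map_one _).symm
  rw [← e2, e1]
  field_simp

/-- a good set of places -/
lemma exists_good {n : ℕ} (p : Fin n → F × F)
    (hp : ∀ i j, i ≠ j → (p i).1 * (p j).2 - (p j).1 * (p i).2 ≠ 0) (X : Finset F)
    (hX : ∀ x ∈ X, x ≠ 0) : ∃ S : Finset (Pl F), Good S p ∧
      ∀ v : HeightOneSpectrum (𝓞 F), Sum.inr v ∉ S → ∀ x ∈ X, fv v x = 1 := by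
  let Y : Finset F := (Finset.univ.image fun i => (p i).1) ∪ (Finset.univ.image fun i => (p i).2) ∪
    (Finset.univ.image fun ij : Fin n × Fin n => (p ij.1).1 * (p ij.2).2 - (p ij.2).1 * (p ij.1).2) ∪ X
  have hfin : (⋃ x : {x : Y // x.1 ≠ 0}, {v : HeightOneSpectrum (𝓞 F) | fv v x.1.1 ≠ 1}).Finite :=
    Set.finite_iUnion fun x => fv_support_finite x.2
  let S : Finset (Pl F) := Finset.univ.image Sum.inl ∪ hfin.toFinset.image Sum.inr
  have hS : ∀ v : HeightOneSpectrum (𝓞 F), Sum.inr v ∉ S → ∀ x ∈ Y, x ≠ 0 → fv v x = 1 := by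
    intro v hv x hx hx0
    by_contra hc
    apply hv
    refine Finset.mem_union_right _ (Finset.mem_image_of_mem _ ((Set.Finite.mem_toFinset _).2 ?_))
    exact Set.mem_iUnion.2 ⟨⟨⟨x, hx⟩, hx0⟩, hc⟩
  have hle : ∀ v : HeightOneSpectrum (𝓞 F), Sum.inr v ∉ S → ∀ x ∈ Y, fv v x ≤ 1 := by
    intro v hv x hx
    by_cases h0 : x = 0
    · rw [h0, map_zero]
      exact zero_le_one
    · exact (hS v hv x hx h0).le
  refine ⟨S, ⟨fun v => ?_, fun v hv i => ?_, fun v hv i => ?_, fun v hv i j hij => ?_⟩,
    fun v hv x hx => ?_⟩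
  · exact Finset.mem_union_left _ (Finset.mem_image_of_mem _ (Finset.mem_univ _))
  · refine hle v hv _ (Finset.mem_union_left _ (Finset.mem_union_left _ (Finset.mem_union_left _ ?_)))
    exact Finset.mem_image_of_mem _ (Finset.mem_univ i)
  · refine hle v hv _ (Finset.mem_union_left _ (Finset.mem_union_left _ (Finset.mem_union_right _ ?_)))
    exact Finset.mem_image_of_mem _ (Finset.mem_univ i)
  · refine hS v hv _ (Finset.mem_union_left _ (Finset.mem_union_right _ ?_)) (hp i j hij)
    exact Finset.mem_image.2 ⟨(i, j), Finset.mem_univ _, rfl⟩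
  · exact hS v hv x (Finset.mem_union_right _ hx) (hX x hx)

/-- the elements of a finitely generated group are units -/
lemma group_unit (g : Finset Qbarˣ) (hg : ∀ u ∈ g, ((u : Qbarˣ) : Qbar) ∈ F)
    (v : HeightOneSpectrum (𝓞 F)) (hv : ∀ u (hu : u ∈ g), fv v (⟨u, hg u hu⟩ : F) = 1)
    {u : Qbarˣ} (hu : u ∈ Subgroup.closure (g : Set Qbarˣ)) :
    ∃ w : F, (w : Qbar) = ((u : Qbarˣ) : Qbar) ∧ fv v w = 1 := by
  let U : Subgroup Qbarˣ :=
    { carrier := {u | ∃ w : F, (w : Qbar) = ((u : Qbarˣ) : Qbar) ∧ fv v w = 1}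
      mul_mem' := by
        rintro x y ⟨a, ha, ha1⟩ ⟨b, hb, hb1⟩
        exact ⟨a * b, by rw [Units.val_mul, ← ha, ← hb]; rfl, by rw [map_mul, ha1, hb1, one_mul]⟩
      one_mem' := ⟨1, by simp, map_one _⟩
      inv_mem' := by
        rintro x ⟨a, ha, ha1⟩
        refine ⟨a⁻¹, ?_, by rw [map_inv₀, ha1, inv_one]⟩
        rw [Units.val_inv_eq_inv_val, ← ha]
        rfl }
  have h1 : Subgroup.closure (g : Set Qbarˣ) ≤ U := by
    rw [Subgroup.closure_le]
    intro x hx
    exact ⟨⟨_, hg x hx⟩, rfl, hv x hx⟩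
  exact h1 hu

end Pool.Agent.H594.WI
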