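import Mathlib
import Pool.Agent.H594.WI.Abs

set_option autoImplicit false
set_option linter.unusedSectionVars false

/-!
# Heights of the values of rational functions modulo a group of finite rank
-/

namespace Pool.Agent.H594.WI

open NumberField IsDedekindDomain Finset Module Height
open Pool.Agent.W180.OP (Pl av wt fv fv_support_finite nrm)
open Pool.Agent.H594.ML
open Pool.Agent.Helper259.AbsHt Pool.Agent.Y215.SK Pool.Agent.Y215.AF

open scoped Classical

section

variable (F : IntermediateField ℚ Qbar) [NumberField F]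

/-- the linear forms -/
noncomputable def pf (a : Qbar) : F × F := if h : a ∈ F then (1, ⟨a, h⟩) else (1, 0)

/-- the form at infinity -/
noncomputable def pinf : F × F := (0, -1)

lemma lf_pinf (z : Qbar) : lf (pinf F) (ge F z) = 1 := by
  unfold lf pinf
  simp

lemma lf_pf {a : Qbar} (ha : a ∈ F) (z : Qbar) :
    ((lf (pf F a) (ge F z) : EL F z) : Qbar) = z - a := by
  unfold lf pf
  rw [dif_pos ha]
  simp only [map_one, one_mul]
  rfl

/-- at infinity there is no contribution of integers -/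
lemma cnt_pinf (S : Finset (Pl F)) {z : Qbar} (hz : IsIntegral ℤ z) :
    cnt S (pinf F) (ge F z) = 0 := by
  have hint : IsIntegral ℤ (ge F z) := by
    have h1 : IsIntegral ℤ (algebraMap (EL F z) Qbar (ge F z)) := hz
    exact (isIntegral_algebraMap_iff (algebraMap (EL F z) Qbar).injective).1 h1
  have hv : ∀ v : HeightOneSpectrum (𝓞 (EL F z)), nrm (fv v) (pt (ge F z)) = 1 := by
    intro v
    apply le_antisymm _ (one_le_nrm _ _)
    have h2 : fv v (ge F z) ≤ 1 := by
      rw [Pool.Agent.NH28.fv_le_one_iff]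
      exact v.valuation_le_one (⟨ge F z, hint⟩ : 𝓞 (EL F z))
    obtain ⟨i, hi⟩ := Pool.Agent.W180.OP.exists_nrm (fv v) (by norm_num : 0 < 2) (pt (ge F z))
    rw [← hi]
    fin_cases i
    · exact (map_one (fv v)).le
    · exact h2
  unfold cnt
  have h3 : ∀ v : HeightOneSpectrum (𝓞 (EL F z)), (if v ∈ Pool.Agent.NH28.fab (EL F z) S then (0 : ℝ)
      else lam (pinf F) (ge F z) v) = 0 := by
    intro v
    split_ifs
    · rfl
    · unfold lam
      rw [hv, lf_pinf, map_one, Real.log_one, sub_zero]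
  simp only [h3]
  exact finsum_zero

/-- the part of the height outside of `S`, in absolute normalisation -/
noncomputable def NN (S : Finset (Pl F)) (p : F × F) (z : Qbar) : ℝ :=
  cnt S p (ge F z) / finrank ℚ (EL F z)

lemma NN_mul (S : Finset (Pl F)) (p : F × F) (z : Qbar) :
    cnt S p (ge F z) = finrank ℚ (EL F z) * NN F S p z := by
  have hN : (0 : ℝ) < finrank ℚ (EL F z) := by
    exact_mod_cast (finrank_pos : 0 < finrank ℚ (EL F z))
  unfold NN
  field_simp

end

/-- **Parts of the height outside of a finite set of places.** -/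
theorem engine (Γ : Subgroup Qbarˣ) (hΓ : Γ.FG) (K : IntermediateField ℚ Qbar)
    [FiniteDimensional ℚ K] (R : Finset Qbar) (d : ℕ) (hd : 1 ≤ d) :
    ∃ N : Option Qbar → Qbar → ℝ,
      (∀ z, z ∉ R → ∀ o, 0 ≤ N o z) ∧
      (∀ z, z ∉ R → ∀ (μ : Qbar → ℤ) (u : Qbarˣ), u ∈ DivHull Γ →
        ∑ a ∈ R, (max 0 (μ a) : ℤ) * N (some a) z + (max 0 (-∑ a ∈ R, μ a) : ℤ) * N none z ≤
          h1 ((∏ a ∈ R, (z - a) ^ μ a) / (u : Qbar))) ∧
      (∃ C : ℝ, 0 ≤ C ∧ ∀ z ∈ DegQ K d, z ∉ R → ∀ o, N o z ≤ h1 z + C) ∧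
      (∀ z, IsIntegral ℤ z → N none z = 0) ∧
      ∀ ε : ℝ, 0 < ε → ∃ C : ℝ, 0 ≤ C ∧ ∀ z ∈ DegQ K d, z ∉ R →
        (R.card + 1 - (2 * d + ε)) * h1 z - C ≤ ∑ a ∈ R, N (some a) z + N none z := by
  obtain ⟨g, rfl⟩ := hΓ
  obtain ⟨F, hF, hKF, hXF, -⟩ := exists_field K (R ∪ g.image (fun u : Qbarˣ => (u : Qbar))) ∅
  have hRF : ∀ a ∈ R, a ∈ F := fun a ha => hXF a (Finset.mem_union_left _ ha)
  have hgF : ∀ u ∈ g, ((u : Qbarˣ) : Qbar) ∈ F := fun u hu =>
    hXF _ (Finset.mem_union_right _ (Finset.mem_image_of_mem _ hu))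
  let e : Fin R.card ≃ R := R.equivFin.symm
  let p : Fin (R.card + 1) → F × F := Fin.cons (pinf F) (fun i => pf F (e i))
  have hp0 : p 0 = pinf F := rfl
  have hps : ∀ i : Fin R.card, p i.succ = pf F (e i) := fun i => rfl
  have hpe : ∀ i : Fin R.card, pf F (e i) = (1, ⟨e i, hRF _ (e i).2⟩) := fun i => dif_pos _
  have hdet : ∀ i j, i ≠ j → (p i).1 * (p j).2 - (p j).1 * (p i).2 ≠ 0 := by
    intro i j
    refine Fin.cases ?_ (fun i => ?_) i <;> refine Fin.cases ?_ (fun j => ?_) j
    · intro h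
      exact absurd rfl h
    · intro _
      rw [hp0, hps, hpe]
      unfold pinf
      simp
    · intro _
      rw [hp0, hps, hpe]
      unfold pinf
      simp
    · intro hij
      rw [hps, hps, hpe, hpe]
      simp only [one_mul]
      intro h
      apply hij
      congr 1
      apply e.injective
      apply Subtype.ext
      exact (congrArg (fun x : F => (x : Qbar)) (sub_eq_zero.1 h)).symm
  have hpne : ∀ i, p i ≠ 0 := by
    intro i
    refine Fin.cases ?_ (fun i => ?_) i
    · rw [hp0]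
      unfold pinf
      intro h
      have := congrArg Prod.snd h
      simp at this
    · rw [hps, hpe]
      intro h
      have := congrArg Prod.fst h
      simp at this
  let X : Finset F := g.attach.image fun u : {x // x ∈ g} =>
    (⟨((u.1 : Qbarˣ) : Qbar), hgF u.1 u.2⟩ : F)
  obtain ⟨S, hS, hSg⟩ := exists_good F p hdet X (by
      intro x hx h0
      obtain ⟨u, -, hu⟩ := Finset.mem_image.1 hx
      rw [h0] at hu
      exact u.1.ne_zero (congrArg (fun x : F => (x : Qbar)) hu))
  have hlf : ∀ z, z ∉ R → ∀ i, lf (p i) (ge F z) ≠ 0 := by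
    intro z hz i
    refine Fin.cases ?_ (fun i => ?_) i
    · rw [hp0, lf_pinf]
      exact one_ne_zero
    · rw [hps]
      intro h
      have h2 := lf_pf F (hRF _ (e i).2) z
      rw [h] at h2
      have h3 : z - (e i : Qbar) = 0 := h2.symm
      exact hz (by rw [sub_eq_zero.1 h3]; exact (e i).2)
  let N : Option Qbar → Qbar → ℝ := fun o z => match o with
    | none => NN F S (pinf F) z
    | some a => if a ∈ R then NN F S (pf F a) z else 0
  have hNsum : ∀ (f : Qbar → ℝ) (z : Qbar), ∑ a ∈ R, f a * N (some a) z =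
      ∑ i : Fin R.card, f (e i) * NN F S (p i.succ) z := by
    intro f z
    rw [← Finset.sum_coe_sort R, ← Equiv.sum_comp e]
    refine Finset.sum_congr rfl fun i _ => ?_
    show f (e i) * (if ((e i : R) : Qbar) ∈ R then _ else _) = _
    rw [if_pos (e i).2, hps]
  have hN0 : ∀ z, N none z = NN F S (p 0) z := fun z => rfl
  have hfr : ∀ z : Qbar, (0 : ℝ) < finrank ℚ (EL F z) := by
    intro z
    exact_mod_cast (finrank_pos : 0 < finrank ℚ (EL F z))
  refine ⟨N, ?_, ?_, ?_, ?_, ?_⟩
  · -- nonnegativity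
    intro z hz o
    cases o with
    | none =>
      show 0 ≤ NN F S (p 0) z
      exact div_nonneg (cnt_nonneg hS 0 (hlf z hz 0)) (hfr z).le
    | some a =>
      show 0 ≤ if a ∈ R then NN F S (pf F a) z else 0
      split_ifs with ha
      · have h1 : pf F a = p (e.symm ⟨a, ha⟩).succ := by
          rw [hps, Equiv.apply_symm_apply]
        rw [h1]
        exact div_nonneg (cnt_nonneg hS _ (hlf z hz _)) (hfr z).le
      · exact le_rfl
  · -- the height of a value
    rintro z hz μ u ⟨m, hm, hum⟩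
    have hv : ∀ v : HeightOneSpectrum (𝓞 F), Sum.inr v ∉ S →
        ∀ x (hx : x ∈ g), fv v (⟨x, hgF x hx⟩ : F) = 1 := fun v hv x hx =>
      hSg v hv _ (Finset.mem_image.2 ⟨⟨x, hx⟩, Finset.mem_attach _ _, rfl⟩)
    obtain ⟨γ, hγ⟩ : ∃ γ : F, (γ : Qbar) = (u : Qbar) ^ m := by
      let U : Subgroup Qbarˣ :=
        { carrier := {u | ∃ w : F, (w : Qbar) = ((u : Qbarˣ) : Qbar)}
          mul_mem' := by
            rintro x y ⟨a, ha⟩ ⟨b, hb⟩
            exact ⟨a * b, by rw [Units.val_mul, ← ha, ← hb]; rfl⟩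
          one_mem' := ⟨1, by simp⟩
          inv_mem' := by
            rintro x ⟨a, ha⟩
            refine ⟨a⁻¹, ?_⟩
            rw [Units.val_inv_eq_inv_val, ← ha]
            rfl }
      have h1 : Subgroup.closure (g : Set Qbarˣ) ≤ U := by
        rw [Subgroup.closure_le]
        intro x hx
        exact ⟨⟨_, hgF x hx⟩, rfl⟩
      obtain ⟨w, hw⟩ := h1 hum
      exact ⟨w, by rw [hw, Units.val_pow_eq_pow_val]⟩
    have hγv : ∀ v : HeightOneSpectrum (𝓞 F), Sum.inr v ∉ S → fv v γ = 1 := by
      intro v hv'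
      obtain ⟨w, hw, hw1⟩ := group_unit F g hgF v (hv v hv') hum
      have : w = γ := by
        apply Subtype.ext
        rw [hw, hγ, Units.val_pow_eq_pow_val]
      rwa [this] at hw1
    let ν : Fin (R.card + 1) → ℤ := Fin.cons (m * ∑ a ∈ R, μ a) (fun i => -(m * μ (e i)))
    have hsumμ : ∑ a ∈ R, μ a = ∑ i : Fin R.card, μ (e i) := by
      rw [← Finset.sum_coe_sort R, ← Equiv.sum_comp e]
    have hν : ∑ i, ν i = 0 := by
      rw [Fin.sum_univ_succ]
      show m * ∑ a ∈ R, μ a + ∑ i : Fin R.card, -(m * μ (e i)) = 0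
      rw [Finset.sum_neg_distrib, ← Finset.mul_sum, hsumμ]
      ring
    have h1 := height_val hS (hlf z hz) ν hν (e := γ) hγv
    have hval : ((val p γ ν (ge F z) : EL F z) : Qbar) =
        ((∏ a ∈ R, (z - a) ^ μ a) / (u : Qbar))⁻¹ ^ m := by
      unfold val
      rw [Fin.prod_univ_succ]
      have e1 : lf (p 0) (ge F z) ^ ν 0 = 1 := by
        rw [hp0, lf_pinf, one_zpow]
      rw [e1, one_mul]
      have e2 : ((algebraMap F (EL F z) γ * ∏ i : Fin R.card, lf (p i.succ) (ge F z) ^ ν i.succ :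
          EL F z) : Qbar) = (γ : Qbar) * ∏ i : Fin R.card, (z - e i) ^ (-(m * μ (e i))) := by
        have e3 := map_mul (algebraMap (EL F z) Qbar) (algebraMap F (EL F z) γ)
          (∏ i : Fin R.card, lf (p i.succ) (ge F z) ^ ν i.succ)
        refine e3.trans ?_
        rw [map_prod]
        congr 1
        refine Finset.prod_congr rfl fun i _ => ?_
        rw [map_zpow₀]
        congr 1
        exact lf_pf F (hRF _ (e i).2) z
      rw [e2, hγ]
      have e4 : ∏ a ∈ R, (z - a) ^ μ a = ∏ i : Fin R.card, (z - e i) ^ μ (e i) := by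
        rw [← Finset.prod_coe_sort R, ← Equiv.prod_comp e]
      rw [e4, inv_div, div_pow, ← Finset.prod_pow, div_eq_mul_inv, ← Finset.prod_inv_distrib]
      congr 1
      refine Finset.prod_congr rfl fun i _ => ?_
      rw [zpow_neg, mul_comm, zpow_mul, zpow_natCast]
    rw [h1_pt, hval, h1_pow, h1_inv] at h1
    have hm' : (0 : ℝ) < m := by exact_mod_cast hm
    have h2 : ∑ i, (max 0 (-ν i) : ℤ) * cnt S (p i) (ge F z) =
        finrank ℚ (EL F z) * (m * (∑ a ∈ R, (max 0 (μ a) : ℤ) * N (some a) z +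
          (max 0 (-∑ a ∈ R, μ a) : ℤ) * N none z)) := by
      rw [hNsum (fun a => ((max 0 (μ a) : ℤ) : ℝ)), hN0, Fin.sum_univ_succ]
      have hmax : ∀ x : ℤ, ((max 0 (m * x) : ℤ) : ℝ) = m * ((max 0 x : ℤ) : ℝ) := by
        intro x
        push_cast
        rw [mul_max_of_nonneg _ _ hm'.le, mul_zero]
      have e1 : ((max 0 (-ν 0) : ℤ) : ℝ) = m * ((max 0 (-∑ a ∈ R, μ a) : ℤ) : ℝ) := by
        rw [← hmax]
        show ((max 0 (-(m * ∑ a ∈ R, μ a)) : ℤ) : ℝ) = _
        rw [mul_neg]
      have e2 : ∀ i : Fin R.card, ((max 0 (-ν i.succ) : ℤ) : ℝ) = m * ((max 0 (μ (e i)) : ℤ) : ℝ) := by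
        intro i
        rw [← hmax]
        show ((max 0 (- -(m * μ (e i))) : ℤ) : ℝ) = _
        rw [neg_neg]
      rw [e1, NN_mul, mul_add, mul_add, Finset.mul_sum, Finset.mul_sum, add_comm]
      congr 1
      · refine Finset.sum_congr rfl fun i _ => ?_
        rw [e2, NN_mul]
        ring
      · ring
    rw [h2] at h1
    have h3 := le_of_mul_le_mul_left h1 (hfr z)
    exact le_of_mul_le_mul_left h3 hm'
  · -- upper bound
    choose C hC0 hC using fun i : Fin (R.card + 1) => cnt_le S hS.inf (p i) d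
    refine ⟨∑ i, C i, Finset.sum_nonneg fun i _ => hC0 i, ?_⟩
    intro z hzd hz o
    have hfr1 : (1 : ℝ) ≤ finrank ℚ (EL F z) := by
      exact_mod_cast (finrank_pos : 0 < finrank ℚ (EL F z))
    have key : ∀ i, NN F S (p i) z ≤ h1 z + ∑ i, C i := by
      intro i
      have h1 := hC i (EL F z) (finrank_EL F hKF hzd) (ge F z) (hlf z hz i)
      rw [h1_pt] at h1
      unfold NN
      rw [div_le_iff₀ (hfr z)]
      have h2 : C i ≤ ∑ i, C i := Finset.single_le_sum (f := C) (fun i _ => hC0 i) (Finset.mem_univ i)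
      have h3 : ((ge F z : EL F z) : Qbar) = z := rfl
      rw [h3] at h1
      have h4 : ∑ i, C i ≤ (∑ i, C i) * finrank ℚ (EL F z) :=
        le_mul_of_one_le_right ((hC0 i).trans h2) hfr1
      linarith
    cases o with
    | none => exact key 0
    | some a =>
      show (if a ∈ R then NN F S (pf F a) z else 0) ≤ _
      split_ifs with ha
      · have h1 : pf F a = p (e.symm ⟨a, ha⟩).succ := by
          rw [hps, Equiv.apply_symm_apply]
        rw [h1]
        exact key _
      · exact add_nonneg (h1_nonneg z) (Finset.sum_nonneg fun i _ => hC0 i)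
  · -- integers
    intro z hz
    show NN F S (pinf F) z = 0
    unfold NN
    rw [cnt_pinf F S hz, zero_div]
  · -- Wirsing
    intro ε hε
    obtain ⟨P, hP0, hmain⟩ := wirsing p hpne hdet d hd ε hε
    obtain ⟨C, hC0, hC⟩ := hmain S hS.inf
    let Pm : Polynomial Qbar := P.map (algebraMap F Qbar)
    have hPm : Pm ≠ 0 := by
      intro h
      exact hP0 ((Polynomial.map_eq_zero _).1 h)
    let B : ℝ := ∑ z ∈ Pm.roots.toFinset, |((R.card : ℝ) + 1 - (2 * d + ε))| * h1 z
    have hB0 : 0 ≤ B := Finset.sum_nonneg fun z _ => mul_nonneg (abs_nonneg _) (h1_nonneg z)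
    refine ⟨C + B, add_nonneg hC0 hB0, ?_⟩
    intro z hzd hz
    have hsum : ∑ a ∈ R, N (some a) z + N none z = ∑ i, NN F S (p i) z := by
      have h1 := hNsum (fun _ => 1) z
      simp only [one_mul] at h1
      rw [h1, hN0, Fin.sum_univ_succ, add_comm]
    rw [hsum]
    by_cases hPz : Pm.eval z = 0
    · have h1 : |((R.card : ℝ) + 1 - (2 * d + ε))| * h1 z ≤ B :=
        Finset.single_le_sum (f := fun z => |((R.card : ℝ) + 1 - (2 * d + ε))| * h1 z)
          (fun z _ => mul_nonneg (abs_nonneg _) (h1_nonneg z))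
          (Multiset.mem_toFinset.2 ((Polynomial.mem_roots hPm).2 hPz))
      have h2 : ((R.card : ℝ) + 1 - (2 * d + ε)) * Pool.Agent.Y215.SK.h1 z ≤
          |((R.card : ℝ) + 1 - (2 * d + ε))| * Pool.Agent.Y215.SK.h1 z :=
        mul_le_mul_of_nonneg_right (le_abs_self _) (h1_nonneg z)
      have h3 : 0 ≤ ∑ i, NN F S (p i) z := Finset.sum_nonneg fun i _ =>
        div_nonneg (cnt_nonneg hS i (hlf z hz i)) (hfr z).le
      linarith
    · have hz0 : Polynomial.aeval (ge F z) P ≠ 0 := by
        intro h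
        apply hPz
        have h1 := congrArg (fun x : EL F z => (x : Qbar)) h
        have h2 : ((Polynomial.aeval (ge F z) P : EL F z) : Qbar) = Polynomial.aeval z P := by
          exact (Polynomial.aeval_algebraMap_apply Qbar (ge F z) P).symm
        simp only [h2] at h1
        rw [Polynomial.eval_map_algebraMap]
        exact h1
      have h1 := hC (EL F z) (finrank_EL F hKF hzd) (ge F z) (adjoin_ge F z) hz0 (hlf z hz)
      rw [h1_pt] at h1
      have h3 : ((ge F z : EL F z) : Qbar) = z := rfl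
      rw [h3] at h1
      have h4 : ∑ i, cnt S (p i) (ge F z) = finrank ℚ (EL F z) * ∑ i, NN F S (p i) z := by
        rw [Finset.mul_sum]
        exact Finset.sum_congr rfl fun i _ => NN_mul F S (p i) z
      rw [h4] at h1
      push_cast at h1
      have h5 : (finrank ℚ (EL F z) : ℝ) * (((R.card : ℝ) + 1 - (2 * d + ε)) *
          Pool.Agent.Y215.SK.h1 z - C) ≤ finrank ℚ (EL F z) * ∑ i, NN F S (p i) z := by
        refine le_trans (le_of_eq ?_) h1
        ring
      have h6 := le_of_mul_le_mul_left h5 (hfr z)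
      linarith

end Pool.Agent.H594.WI
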