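import Mathlib
import Pool.Agent.H594.WI.Eng
import Pool.Graph.R_seed8.H58W.HtNorth

set_option autoImplicit false
set_option linter.unusedSectionVars false

/-!
# Lower bounds for the heights of values of rational functions modulo a group of finite rank
-/

namespace Pool.Agent.H594.WI

open NumberField Finset Module
open Pool.Agent.H594.ML
open Pool.Agent.Helper259.AbsHt Pool.Agent.Y215.SK Pool.Agent.Y215.AF

open scoped Classical

lemma weights {ι : Type} (I : Finset ι) (N ω : ι → ℝ) (h C1 C2 T B : ℝ)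
    (hC1 : 0 ≤ C1) (hω0 : ∀ i ∈ I, 0 ≤ ω i) (hωB : ∀ i ∈ I, ω i ≤ B) (hB : 0 ≤ B)
    (hN : ∀ i ∈ I, N i ≤ h + C1) (hsum : (I.card - T) * h - C2 ≤ ∑ i ∈ I, N i) :
    (∑ i ∈ I, ω i - T * B) * h - (C2 + I.card * C1) * B ≤ ∑ i ∈ I, ω i * N i := by
  have h1 : ∑ i ∈ I, (B - ω i) * N i ≤ ∑ i ∈ I, (B - ω i) * (h + C1) :=
    Finset.sum_le_sum fun i hi => mul_le_mul_of_nonneg_left (hN i hi) (sub_nonneg.2 (hωB i hi))
  have h2 : ∑ i ∈ I, (B - ω i) * N i = B * ∑ i ∈ I, N i - ∑ i ∈ I, ω i * N i := by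
    rw [Finset.mul_sum, ← Finset.sum_sub_distrib]
    exact Finset.sum_congr rfl fun i _ => by ring
  have h3 : ∑ i ∈ I, (B - ω i) * (h + C1) = (I.card * B - ∑ i ∈ I, ω i) * (h + C1) := by
    rw [← Finset.sum_mul, Finset.sum_sub_distrib, Finset.sum_const, nsmul_eq_mul]
  have h4 : B * ((I.card - T) * h - C2) ≤ B * ∑ i ∈ I, N i := mul_le_mul_of_nonneg_left hsum hB
  have h5 : 0 ≤ (∑ i ∈ I, ω i) * C1 := mul_nonneg (Finset.sum_nonneg hω0) hC1
  rw [h2, h3] at h1
  nlinarith

/-- the orders at the points of the projective line -/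
def ordo (R : Finset Qbar) (μ : Qbar → ℤ) : Option Qbar → ℤ
  | none => -∑ a ∈ R, μ a
  | some a => μ a

/-- a mean of the numbers of zeros and poles -/
noncomputable def wgt (R : Finset Qbar) (μ : Qbar → ℤ) (s : ℝ) (o : Option Qbar) : ℝ :=
  s * max 0 (ordo R μ o : ℝ) + (1 - s) * max 0 (-(ordo R μ o : ℝ))

lemma wgt_nonneg (R : Finset Qbar) (μ : Qbar → ℤ) {s : ℝ} (h0 : 0 ≤ s) (h1 : s ≤ 1)
    (o : Option Qbar) : 0 ≤ wgt R μ s o := by
  unfold wgt
  have h2 : 0 ≤ 1 - s := by linarith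
  positivity

/-- **Lower bounds for the heights of values of rational functions modulo a group of finite
rank.** -/
theorem val_ht (Γ : Subgroup Qbarˣ) (hΓ : Γ.FG) (K : IntermediateField ℚ Qbar)
    [FiniteDimensional ℚ K] (R : Finset Qbar) (d : ℕ) (hd : 1 ≤ d) (ε : ℝ) (hε : 0 < ε) :
    ∃ C : ℝ, 0 ≤ C ∧ ∀ z ∈ DegQ K d, z ∉ R → ∀ (μ : Qbar → ℤ) (u : Qbarˣ), u ∈ DivHull Γ →
      ∀ s B : ℝ, 0 ≤ s → s ≤ 1 → 0 ≤ B →
      (∑ o ∈ insertNone R, min (wgt R μ s o) B - (2 * d + ε) * B) * h1 z - C * B ≤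
        h1 ((∏ a ∈ R, (z - a) ^ μ a) / (u : Qbar)) ∧
      (IsIntegral ℤ z → (∑ a ∈ R, min (wgt R μ s (some a)) B - (2 * d - 1 + ε) * B) * h1 z - C * B ≤
        h1 ((∏ a ∈ R, (z - a) ^ μ a) / (u : Qbar))) := by
  obtain ⟨N, hN0, hval, ⟨C1, hC1, hup⟩, hint, hW⟩ := engine Γ hΓ K R d hd
  obtain ⟨C2, hC2, hlow⟩ := hW ε hε
  have hcard : (0 : ℝ) ≤ (R.card + 1 : ℝ) * C1 := by positivity
  refine ⟨C2 + (R.card + 1) * C1, by positivity, ?_⟩
  intro z hz hzR μ u hu s B hs0 hs1 hB
  set H : ℝ := h1 ((∏ a ∈ R, (z - a) ^ μ a) / (u : Qbar)) with hH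
  have hs1' : 0 ≤ 1 - s := by linarith
  -- zeros
  have hZ : ∑ o ∈ insertNone R, max 0 (ordo R μ o : ℝ) * N o z ≤ H := by
    have h := hval z hzR μ u hu
    rw [Finset.sum_insertNone, add_comm]
    push_cast at h
    show ∑ a ∈ R, max 0 (μ a : ℝ) * N (some a) z + max 0 ((-∑ a ∈ R, μ a : ℤ) : ℝ) * N none z ≤ _
    push_cast
    exact h
  -- poles
  have hP : ∑ o ∈ insertNone R, max 0 (-(ordo R μ o : ℝ)) * N o z ≤ H := by
    have h := hval z hzR (fun a => -μ a) u⁻¹ ((divGroup Γ).inv_mem hu)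
    have e1 : (∏ a ∈ R, (z - a) ^ (-μ a)) / ((u⁻¹ : Qbarˣ) : Qbar) =
        ((∏ a ∈ R, (z - a) ^ μ a) / (u : Qbar))⁻¹ := by
      rw [Units.val_inv_eq_inv_val, inv_div, div_inv_eq_mul, mul_comm, div_eq_mul_inv,
        ← Finset.prod_inv_distrib]
      congr 1
      exact Finset.prod_congr rfl fun a _ => zpow_neg _ _
    rw [e1, h1_inv] at h
    rw [Finset.sum_insertNone, add_comm]
    push_cast at h
    show ∑ a ∈ R, max 0 (-(μ a : ℝ)) * N (some a) z +
      max 0 (-((-∑ a ∈ R, μ a : ℤ) : ℝ)) * N none z ≤ _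
    push_cast
    rw [Finset.sum_neg_distrib] at h
    exact h
  have hmain : ∑ o ∈ insertNone R, wgt R μ s o * N o z ≤ H := by
    have h1 : ∑ o ∈ insertNone R, wgt R μ s o * N o z =
        s * ∑ o ∈ insertNone R, max 0 (ordo R μ o : ℝ) * N o z +
        (1 - s) * ∑ o ∈ insertNone R, max 0 (-(ordo R μ o : ℝ)) * N o z := by
      rw [Finset.mul_sum, Finset.mul_sum, ← Finset.sum_add_distrib]
      refine Finset.sum_congr rfl fun o _ => ?_
      unfold wgt
      ring
    rw [h1]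
    have h2 := mul_le_mul_of_nonneg_left hZ hs0
    have h3 := mul_le_mul_of_nonneg_left hP hs1'
    linarith
  have hmin : ∀ o, 0 ≤ min (wgt R μ s o) B := fun o => le_min (wgt_nonneg R μ hs0 hs1 o) hB
  have hmul : ∀ o, min (wgt R μ s o) B * N o z ≤ wgt R μ s o * N o z := fun o =>
    mul_le_mul_of_nonneg_right (min_le_left _ _) (hN0 z hzR o)
  constructor
  · have h1 := weights (insertNone R) (fun o => N o z) (fun o => min (wgt R μ s o) B)
      (Pool.Agent.Y215.SK.h1 z) C1 C2 (2 * d + ε) B hC1 (fun o _ => hmin o)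
      (fun o _ => min_le_right _ _) hB (fun o _ => hup z hz hzR o) (by
        rw [Finset.card_insertNone, Finset.sum_insertNone, add_comm (N none z)]
        push_cast
        exact hlow z hz hzR)
    rw [Finset.card_insertNone] at h1
    push_cast at h1
    exact h1.trans ((Finset.sum_le_sum fun o _ => hmul o).trans hmain)
  · intro hzi
    have h0 := hint z hzi
    have h1 := weights R (fun a => N (some a) z) (fun a => min (wgt R μ s (some a)) B)
      (Pool.Agent.Y215.SK.h1 z) C1 C2 (2 * d - 1 + ε) B hC1 (fun o _ => hmin _)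
      (fun o _ => min_le_right _ _) hB (fun o _ => hup z hz hzR _) (by
        have h2 := hlow z hz hzR
        rw [h0, add_zero] at h2
        refine le_trans (le_of_eq ?_) h2
        ring)
    have h2 : ∑ a ∈ R, min (wgt R μ s (some a)) B * N (some a) z ≤
        ∑ o ∈ insertNone R, wgt R μ s o * N o z := by
      rw [Finset.sum_insertNone]
      have h3 := mul_nonneg (wgt_nonneg R μ hs0 hs1 none) (hN0 z hzR none)
      have h4 : ∑ a ∈ R, min (wgt R μ s (some a)) B * N (some a) z ≤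
          ∑ a ∈ R, wgt R μ s (some a) * N (some a) z := Finset.sum_le_sum fun a _ => hmul _
      linarith
    refine le_trans ?_ (h1.trans (h2.trans hmain))
    have h3 : (C2 + R.card * C1) * B ≤ (C2 + (R.card + 1) * C1) * B := by
      refine mul_le_mul_of_nonneg_right ?_ hB
      linarith
    linarith

/-- Northcott's theorem for the numbers of bounded degree over a number field -/
theorem northcott_deg (K : IntermediateField ℚ Qbar) [FiniteDimensional ℚ K] (d : ℕ) (B : ℝ) :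
    {z | z ∈ DegQ K d ∧ h1 z ≤ B}.Finite := by
  have hK : NumberField K := { to_charZero := inferInstance, to_finiteDimensional := inferInstance }
  refine (Pool.Agent.H58W.northcott (finrank ℚ K * d) B).subset ?_
  rintro z ⟨hz, hB⟩
  refine ⟨?_, ?_⟩
  · have h1 : (minpoly ℚ (ge K z)).natDegree ≤ finrank ℚ (EL K z) := minpoly.natDegree_le _
    have h2 : minpoly ℚ (ge K z) = minpoly ℚ z := by
      have h3 := minpoly.algebraMap_eq (A := ℚ) (B := EL K z) (B' := Qbar)
        (algebraMap (EL K z) Qbar).injective (ge K z)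
      rw [← h3]
      rfl
    rw [← h2]
    refine h1.trans ?_
    have h4 : finrank ℚ K * finrank K (EL K z) = finrank ℚ (EL K z) := finrank_mul_finrank ℚ K _
    rw [← h4]
    exact Nat.mul_le_mul_left _ (finrank_EL K le_rfl hz)
  · refine le_trans (le_of_eq ?_) hB
    unfold h1
    apply le_antisymm
    · have h := absLogHeight_comp_le (![1, 0] : Fin 2 → Fin 2) (![z, 1] : Fin 2 → Qbar)
      refine le_trans (le_of_eq ?_) h
      congr 1
      funext i
      fin_cases i <;> rfl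
    · have h := absLogHeight_comp_le (![1, 0] : Fin 2 → Fin 2) (![1, z] : Fin 2 → Qbar)
      refine le_trans (le_of_eq ?_) h
      congr 1
      funext i
      fin_cases i <;> rfl

end Pool.Agent.H594.WI
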