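import Mathlib
import Pool.Agent.H594.WI.Ratio
import Pool.Agent.H594.BD.Val

set_option autoImplicit false
set_option linter.unusedSectionVars false

/-!
# Heights of the factors which map values of rational functions to a group of finite rank
-/

namespace Pool.Agent.H594.WI

open Finset Module
open Pool.Agent.H594.ML Pool.Agent.H594.KP Pool.Agent.H594.BD
open Pool.Agent.Helper259.AbsHt Pool.Agent.Y215.SK Pool.Agent.Y215.AF

open scoped Classical

/-- the absolute logarithmic height of an algebraic complex number -/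
noncomputable def ht (z : ℂ) : ℝ := h1 (Function.invFun sg z)

theorem ht_sg (y : Qbar) : ht (sg y) = h1 y := by
  unfold ht
  rw [Function.leftInverse_invFun sg_inj y]

theorem ht_nonneg (z : ℂ) : 0 ≤ ht z := h1_nonneg _

/-- the mean of the positive part and the negative part -/
noncomputable def pm (s : ℝ) (x : ℤ) : ℝ := s * max 0 (x : ℝ) + (1 - s) * max 0 (-(x : ℝ))

theorem cx_height (Γ : Subgroup Qbarˣ) (hΓ : Γ.FG) (K : IntermediateField ℚ ℂ)
    [FiniteDimensional ℚ K] (d : ℕ) (hd : 1 ≤ d) (R : Finset ℂ) (hR : ∀ x ∈ R, IsAlgebraic ℚ x)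
    (ε : ℝ) (hε : 0 < ε) :
    ∃ C : ℝ, 0 ≤ C ∧ ∀ z ∈ DegLe K d, (∀ a ∈ R, z ≠ a) → ∀ (μ : ℂ → ℤ) (u : Qbarˣ),
      u ∈ DivHull Γ → ∀ δ : ℂ, δ * ∏ a ∈ R, (z - a) ^ μ a = sg u →
      ∀ s B : ℝ, 0 ≤ s → s ≤ 1 → 0 ≤ B →
      (∑ a ∈ R, min (pm s (μ a)) B + min (pm s (-∑ a ∈ R, μ a)) B - (2 * d + ε) * B) * ht z - C * B
        ≤ ht δ ∧
      (IsIntegral ℤ z → (∑ a ∈ R, min (pm s (μ a)) B - (2 * d - 1 + ε) * B) * ht z - C * B
        ≤ ht δ) := by
  obtain ⟨R', hR'⟩ : ∃ R' : Finset Qbar, R'.image sg = R := by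
    have h1 : ∀ x : R, ∃ y : Qbar, sg y = x := fun x => exists_sg (hR x x.2)
    choose y hy using h1
    refine ⟨Finset.univ.image y, ?_⟩
    ext x
    simp only [Finset.mem_image, Finset.mem_univ, true_and, exists_exists_eq_and]
    constructor
    · rintro ⟨a, rfl⟩
      rw [hy]
      exact a.2
    · intro hx
      exact ⟨⟨x, hx⟩, hy _⟩
  let K' : IntermediateField ℚ Qbar := K.comap sgA
  have hfd : FiniteDimensional ℚ K' := comap_fin K
  obtain ⟨C, hC0, hC⟩ := val_ht Γ hΓ K' R' d hd ε hε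
  refine ⟨C, hC0, ?_⟩
  intro z hz hzR μ u hu δ he s B hs0 hs1 hB
  obtain ⟨y, rfl⟩ : ∃ y : Qbar, sg y = z := exists_sg (degLe_alg hz)
  obtain ⟨P, hP, hPd, hPK, hPy⟩ := hz
  obtain ⟨P', hP'⟩ := lift_sg (P := P) (fun i => mem_alg (hPK i))
  have hyd : y ∈ DegQ K' d := by
    refine ⟨P', ?_, ?_, fun i => ?_, ?_⟩
    · rintro rfl
      rw [Polynomial.map_zero] at hP'
      exact hP hP'.symm
    · rw [← hP', Polynomial.natDegree_map] at hPd
      exact hPd
    · show sg (P'.coeff i) ∈ K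
      have h1 := hPK i
      rw [← hP', Polynomial.coeff_map] at h1
      exact h1
    · apply sg_inj
      rw [map_zero, ← hPy, ← hP', Polynomial.eval_map_apply]
  have hyR : y ∉ R' := fun h => hzR (sg y) (by rw [← hR']; exact Finset.mem_image_of_mem _ h) rfl
  have hsum : ∑ a ∈ R, μ a = ∑ a ∈ R', μ (sg a) := by
    rw [← hR', Finset.sum_image (fun _ _ _ _ h => sg_inj h)]
  have hprod : ∏ a ∈ R, (sg y - a) ^ μ a = sg (∏ a ∈ R', (y - a) ^ μ (sg a)) := by
    rw [← hR', Finset.prod_image (fun x _ y _ h => sg_inj h), map_prod]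
    refine Finset.prod_congr rfl fun a _ => ?_
    rw [map_zpow₀, map_sub]
  have hpne : ∏ a ∈ R', (y - a) ^ μ (sg a) ≠ 0 := by
    refine Finset.prod_ne_zero_iff.2 fun a ha => zpow_ne_zero _ ?_
    intro h0
    rw [sub_eq_zero] at h0
    exact hyR (h0 ▸ ha)
  have hδ : ht δ = h1 ((∏ a ∈ R', (y - a) ^ μ (sg a)) / (u : Qbar)) := by
    have h2 : δ = sg (((∏ a ∈ R', (y - a) ^ μ (sg a)) / (u : Qbar))⁻¹) := by
      rw [inv_div, map_div₀, ← he, hprod]
      have h3 : sg (∏ a ∈ R', (y - a) ^ μ (sg a)) ≠ 0 := (map_ne_zero sg).2 hpne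
      field_simp
    rw [h2, ht_sg, h1_inv]
  have hS : ∀ f : ℂ → ℝ, ∑ a ∈ R, f a = ∑ a ∈ R', f (sg a) := fun f => by
    rw [← hR', Finset.sum_image (fun _ _ _ _ h => sg_inj h)]
  obtain ⟨h1, h2⟩ := hC y hyd hyR (fun a => μ (sg a)) u hu s B hs0 hs1 hB
  rw [hδ, ht_sg]
  constructor
  · refine le_trans (le_of_eq ?_) h1
    rw [Finset.sum_insertNone, hS, hsum, add_comm (∑ a ∈ R', _)]
    rfl
  · intro hi
    have hi' : IsIntegral ℤ y := (isIntegral_algHom_iff (sg.toIntAlgHom) sg_inj).1 hi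
    refine le_trans (le_of_eq ?_) (h2 hi')
    rw [hS]
    rfl

/-- Northcott's theorem -/
theorem northcott_cx (K : IntermediateField ℚ ℂ) [FiniteDimensional ℚ K] (d : ℕ) (B : ℝ) :
    {z | z ∈ DegLe K d ∧ ht z ≤ B}.Finite := by
  let K' : IntermediateField ℚ Qbar := K.comap sgA
  have hfd : FiniteDimensional ℚ K' := comap_fin K
  refine ((northcott_deg K' d B).image sg).subset ?_
  rintro z ⟨hz, hB⟩
  obtain ⟨y, rfl⟩ : ∃ y : Qbar, sg y = z := exists_sg (degLe_alg hz)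
  obtain ⟨P, hP, hPd, hPK, hPy⟩ := hz
  obtain ⟨P', hP'⟩ := lift_sg (P := P) (fun i => mem_alg (hPK i))
  rw [ht_sg] at hB
  refine ⟨y, ⟨⟨P', ?_, ?_, fun i => ?_, ?_⟩, hB⟩, rfl⟩
  · rintro rfl
    rw [Polynomial.map_zero] at hP'
    exact hP hP'.symm
  · rw [← hP', Polynomial.natDegree_map] at hPd
    exact hPd
  · show sg (P'.coeff i) ∈ K
    have h1 := hPK i
    rw [← hP', Polynomial.coeff_map] at h1
    exact h1
  · apply sg_inj
    rw [map_zero, ← hPy, ← hP', Polynomial.eval_map_apply]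

end Pool.Agent.H594.WI
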