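import Mathlib
import Pool.Agent.H594.WI.Cx

set_option autoImplicit false
set_option linter.unusedSectionVars false

/-!
# Factors which map the values of one rational function to a group of finite rank
-/

namespace Pool.Agent.H594.WI

open Finset Module
open Pool.Agent.H594.ML Pool.Agent.H594.KP Pool.Agent.H594.BD
open Pool.Agent.Helper259.AbsHt Pool.Agent.Y215.SK Pool.Agent.Y215.AF

open scoped Classical

/-- values of one rational function -/
theorem fun_height (Γ : Subgroup Qbarˣ) (hΓ : Γ.FG) (K : IntermediateField ℚ ℂ)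
    [FiniteDimensional ℚ K] (d : ℕ) (hd : 1 ≤ d) (A B : Polynomial ℂ)
    (hA : ∀ i, IsAlgebraic ℚ (A.coeff i)) (hB : ∀ i, IsAlgebraic ℚ (B.coeff i))
    (hA0 : A ≠ 0) (hB0 : B ≠ 0) (ε : ℝ) (hε : 0 < ε) :
    ∃ (R : Finset ℂ) (C : ℝ), 0 ≤ C ∧ (∀ a ∈ A.roots, a ∈ R) ∧ (∀ a ∈ B.roots, a ∈ R) ∧
      ∀ z ∈ DegLe K d, A.eval z ≠ 0 → B.eval z ≠ 0 →
      ∀ u : Qbarˣ, u ∈ DivHull Γ → ∀ δ : ℂ, δ * (A.eval z / B.eval z) = sg u →
      ∀ s B' : ℝ, 0 ≤ s → s ≤ 1 → 0 ≤ B' →
      (∑ a ∈ R, min (pm s (ord A B a)) B' + min (pm s ((B.natDegree : ℤ) - A.natDegree)) B' -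
        (2 * d + ε) * B') * ht z - C * B' ≤ ht δ ∧
      (IsIntegral ℤ z → (∑ a ∈ R, min (pm s (ord A B a)) B' - (2 * d - 1 + ε) * B') * ht z - C * B'
        ≤ ht δ) := by
  let R : Finset ℂ := A.roots.toFinset ∪ B.roots.toFinset
  have hRA : ∀ a ∈ A.roots, a ∈ R := fun a ha =>
    Finset.mem_union_left _ (Multiset.mem_toFinset.2 ha)
  have hRB : ∀ a ∈ B.roots, a ∈ R := fun a ha =>
    Finset.mem_union_right _ (Multiset.mem_toFinset.2 ha)
  have hR : ∀ a ∈ R, IsAlgebraic ℚ a := by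
    intro a ha
    rcases Finset.mem_union.1 ha with h | h
    · exact root_alg hA (Multiset.mem_toFinset.1 h)
    · exact root_alg hB (Multiset.mem_toFinset.1 h)
  obtain ⟨c, hc⟩ : ∃ c : Qbarˣ, A.leadingCoeff / B.leadingCoeff = sg c := exists_unit (by
      rw [div_eq_mul_inv]
      exact (hA _).mul (hB _).inv)
      (div_ne_zero (Polynomial.leadingCoeff_ne_zero.2 hA0)
        (Polynomial.leadingCoeff_ne_zero.2 hB0))
  let Γ2 : Subgroup Qbarˣ := Γ ⊔ Subgroup.closure {c}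
  have hΓ2 : Γ2.FG := Subgroup.FG.sup hΓ
    ((Subgroup.fg_iff _).2 ⟨{c}, rfl, Set.finite_singleton c⟩)
  have hcΓ : c ∈ Γ2 := Subgroup.mem_sup_right (Subgroup.subset_closure rfl)
  obtain ⟨C, hC0, hC⟩ := cx_height Γ2 hΓ2 K d hd R hR ε hε
  refine ⟨R, C, hC0, hRA, hRB, ?_⟩
  intro z hz hAz hBz u hu δ he s B' hs0 hs1 hB'
  have hzR : ∀ a ∈ R, z ≠ a := by
    rintro a ha rfl
    rcases Finset.mem_union.1 ha with h | h
    · exact hAz ((Polynomial.mem_roots hA0).1 (Multiset.mem_toFinset.1 h))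
    · exact hBz ((Polynomial.mem_roots hB0).1 (Multiset.mem_toFinset.1 h))
  have hq : A.eval z / B.eval z = A.leadingCoeff / B.leadingCoeff * ∏ a ∈ R, (z - a) ^ ord A B a := by
    have h := eval_quot (k := 1) (fun _ => A) (fun _ => B) R (fun _ => hRA) (fun _ => hRB)
      (fun _ => 1) z hzR
    simp only [Fin.prod_univ_one, zpow_one, Fin.sum_univ_one, one_mul] at h
    exact h
  have hsum : ∑ a ∈ R, ord A B a = (A.natDegree : ℤ) - B.natDegree := by
    rw [← sum_mult A R hRA, ← sum_mult B R hRB]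
    unfold ord
    rw [Finset.sum_sub_distrib]
    push_cast
    rfl
  have hu2 : u * c⁻¹ ∈ DivHull Γ2 := by
    refine (divGroup Γ2).mul_mem ?_ ((divGroup Γ2).inv_mem (sub_hull _ _ hcΓ))
    obtain ⟨n, hn, hun⟩ := hu
    exact ⟨n, hn, Subgroup.mem_sup_left hun⟩
  have hc0 : sg c ≠ 0 := (map_ne_zero sg).2 c.ne_zero
  have he2 : δ * ∏ a ∈ R, (z - a) ^ ord A B a = sg (u * c⁻¹ : Qbarˣ) := by
    rw [Units.val_mul, Units.val_inv_eq_inv_val, map_mul, map_inv₀, ← he, hq, hc]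
    field_simp
  have h := hC z hz hzR (ord A B) (u * c⁻¹) hu2 δ he2 s B' hs0 hs1 hB'
  rw [hsum] at h
  have e : -((A.natDegree : ℤ) - B.natDegree) = (B.natDegree : ℤ) - A.natDegree := by ring
  rw [e] at h
  exact h

theorem pm_nat (s : ℝ) (x y : ℕ) (h : x = 0 ∨ y = 0) :
    pm s ((x : ℤ) - y) = s * x + (1 - s) * y := by
  unfold pm
  rcases h with rfl | rfl
  · have : (0 : ℝ) ≤ y := Nat.cast_nonneg y
    push_cast
    rw [zero_sub, neg_neg, max_eq_left (by linarith), max_eq_right this]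
  · have : (0 : ℝ) ≤ x := Nat.cast_nonneg x
    push_cast
    rw [sub_zero, max_eq_right this, max_eq_left (by linarith)]

/-- the numbers of zeros and poles on the projective line, with multiplicities at most `m`, `m'` -/
theorem one_height (Γ : Subgroup Qbarˣ) (hΓ : Γ.FG) (K : IntermediateField ℚ ℂ)
    [FiniteDimensional ℚ K] (d : ℕ) (hd : 1 ≤ d) (A B : Polynomial ℂ)
    (hA : ∀ i, IsAlgebraic ℚ (A.coeff i)) (hB : ∀ i, IsAlgebraic ℚ (B.coeff i))
    (hA0 : A ≠ 0) (hB0 : B ≠ 0) (hAB : IsCoprime A B) (m m' : ℕ) (hm0 : 1 ≤ m) (hm0' : 1 ≤ m')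
    (hm : ∀ a, A.rootMultiplicity a ≤ m) (hmi : B.natDegree - A.natDegree ≤ m)
    (hm' : ∀ a, B.rootMultiplicity a ≤ m') (hmi' : A.natDegree - B.natDegree ≤ m')
    (ε : ℝ) (hε : 0 < ε) :
    ∃ C : ℝ, 0 ≤ C ∧ ∀ z ∈ DegLe K d, A.eval z ≠ 0 → B.eval z ≠ 0 →
      ∀ u : Qbarˣ, u ∈ DivHull Γ → ∀ δ : ℂ, δ * (A.eval z / B.eval z) = sg u →
      (max (A.natDegree : ℝ) B.natDegree - 2 * d * (m * m' / (m + m')) - ε) * ht z - C ≤ ht δ := by
  have hmp : (1 : ℝ) ≤ m := by exact_mod_cast hm0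
  have hmp' : (1 : ℝ) ≤ m' := by exact_mod_cast hm0'
  set s : ℝ := m' / (m + m') with hs
  set B' : ℝ := m * m' / (m + m') with hB'
  have hB'0 : 0 < B' := by positivity
  have hs0 : 0 ≤ s := by positivity
  have hs1 : 1 - s = m / (m + m') := by
    rw [hs]
    field_simp
    ring
  have hs1' : s ≤ 1 := by
    have : 0 ≤ 1 - s := by rw [hs1]; positivity
    linarith
  obtain ⟨R, C, hC0, hRA, hRB, hC⟩ := fun_height Γ hΓ K d hd A B hA hB hA0 hB0 (ε / B')
    (by positivity)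
  refine ⟨C * B', by positivity, ?_⟩
  intro z hz hAz hBz u hu δ he
  have h := (hC z hz hAz hBz u hu δ he s B' hs0 hs1' hB'0.le).1
  have hle : ∀ x y : ℕ, x ≤ m → y ≤ m' → x = 0 ∨ y = 0 → min (pm s ((x : ℤ) - y)) B' =
      s * x + (1 - s) * y := by
    intro x y hx hy hxy
    rw [pm_nat s x y hxy]
    apply min_eq_left
    rw [hs1, hs, hB']
    rcases hxy with rfl | rfl
    · have h1 : (y : ℝ) ≤ m' := by exact_mod_cast hy
      have h2 : (m : ℝ) / (m + m') * y ≤ m / (m + m') * m' :=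
        mul_le_mul_of_nonneg_left h1 (by positivity)
      calc (m' : ℝ) / (m + m') * ((0 : ℕ) : ℝ) + m / (m + m') * y = m / (m + m') * y := by simp
        _ ≤ m / (m + m') * m' := h2
        _ = m * m' / (m + m') := by ring
    · have h1 : (x : ℝ) ≤ m := by exact_mod_cast hx
      have h2 : (m' : ℝ) / (m + m') * x ≤ m' / (m + m') * m :=
        mul_le_mul_of_nonneg_left h1 (by positivity)
      calc (m' : ℝ) / (m + m') * x + m / (m + m') * ((0 : ℕ) : ℝ) = m' / (m + m') * x := by simp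
        _ ≤ m' / (m + m') * m := h2
        _ = m * m' / (m + m') := by ring
  have hcop : ∀ a, A.rootMultiplicity a = 0 ∨ B.rootMultiplicity a = 0 := by
    intro a
    by_contra hcon
    push Not at hcon
    have h1 : A.IsRoot a := (Polynomial.rootMultiplicity_pos hA0).1 (Nat.pos_of_ne_zero hcon.1)
    have h2 : B.IsRoot a := (Polynomial.rootMultiplicity_pos hB0).1 (Nat.pos_of_ne_zero hcon.2)
    obtain ⟨x, y, hxy⟩ := hAB
    have h3 := congrArg (Polynomial.eval a) hxy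
    rw [Polynomial.eval_add, Polynomial.eval_mul, Polynomial.eval_mul, h1.eq_zero, h2.eq_zero,
      mul_zero, mul_zero, add_zero, Polynomial.eval_one] at h3
    exact zero_ne_one h3
  have hsumA : ∑ a ∈ R, min (pm s (ord A B a)) B' = s * A.natDegree + (1 - s) * B.natDegree := by
    have h1 : ∀ a ∈ R, min (pm s (ord A B a)) B' = s * (A.rootMultiplicity a : ℝ) +
        (1 - s) * (B.rootMultiplicity a : ℝ) := fun a _ => hle _ _ (hm a) (hm' a) (hcop a)
    rw [Finset.sum_congr rfl h1, Finset.sum_add_distrib, ← Finset.mul_sum, ← Finset.mul_sum]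
    have e1 : (∑ a ∈ R, (A.rootMultiplicity a : ℝ)) = A.natDegree := by
      rw [← sum_mult A R hRA]
      push_cast
      rfl
    have e2 : (∑ a ∈ R, (B.rootMultiplicity a : ℝ)) = B.natDegree := by
      rw [← sum_mult B R hRB]
      push_cast
      rfl
    rw [e1, e2]
  have hinf : min (pm s ((B.natDegree : ℤ) - A.natDegree)) B' =
      s * ((B.natDegree - A.natDegree : ℕ) : ℝ) + (1 - s) * ((A.natDegree - B.natDegree : ℕ) : ℝ) := by
    have h1 : (B.natDegree : ℤ) - A.natDegree = ((B.natDegree - A.natDegree : ℕ) : ℤ) -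
        ((A.natDegree - B.natDegree : ℕ) : ℤ) := by omega
    rw [h1]
    exact hle _ _ hmi hmi' (by omega)
  have htot : ∑ a ∈ R, min (pm s (ord A B a)) B' + min (pm s ((B.natDegree : ℤ) - A.natDegree)) B' =
      max (A.natDegree : ℝ) B.natDegree := by
    rw [hsumA, hinf]
    rcases le_total A.natDegree B.natDegree with h1 | h1
    · have h2 : (A.natDegree : ℝ) ≤ B.natDegree := by exact_mod_cast h1
      rw [max_eq_right h2, Nat.cast_sub h1, Nat.sub_eq_zero_of_le h1]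
      push_cast
      ring
    · have h2 : (B.natDegree : ℝ) ≤ A.natDegree := by exact_mod_cast h1
      rw [max_eq_left h2, Nat.cast_sub h1, Nat.sub_eq_zero_of_le h1]
      push_cast
      ring
  rw [htot] at h
  refine le_trans (le_of_eq ?_) h
  have h3 : ε / B' * B' = ε := div_mul_cancel₀ _ hB'0.ne'
  have h4 : (2 * d + ε / B') * B' = 2 * d * B' + ε := by rw [add_mul, h3]
  rw [h4]
  ring

/-- polynomials at integral points -/
theorem poly_height (Γ : Subgroup Qbarˣ) (hΓ : Γ.FG) (K : IntermediateField ℚ ℂ)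
    [FiniteDimensional ℚ K] (d : ℕ) (hd : 1 ≤ d) (A : Polynomial ℂ)
    (hA : ∀ i, IsAlgebraic ℚ (A.coeff i)) (hA0 : A ≠ 0) (m : ℕ) (hm0 : 1 ≤ m)
    (hm : ∀ a, A.rootMultiplicity a ≤ m) (ε : ℝ) (hε : 0 < ε) :
    ∃ C : ℝ, 0 ≤ C ∧ ∀ z ∈ DegLe K d, IsIntegral ℤ z → A.eval z ≠ 0 →
      ∀ u : Qbarˣ, u ∈ DivHull Γ → ∀ δ : ℂ, δ * A.eval z = sg u →
      (A.natDegree - (2 * d - 1) * m - ε) * ht z - C ≤ ht δ := by
  have hmp : (1 : ℝ) ≤ m := by exact_mod_cast hm0
  obtain ⟨R, C, hC0, hRA, hRB, hC⟩ := fun_height Γ hΓ K d hd A 1 hA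
    (fun i => by
      rw [Polynomial.coeff_one]
      split_ifs
      · exact isAlgebraic_one
      · exact isAlgebraic_zero) hA0 one_ne_zero (ε / m) (by positivity)
  refine ⟨C * m, by positivity, ?_⟩
  intro z hz hzi hAz u hu δ he
  have h := (hC z hz hAz (by rw [Polynomial.eval_one]; exact one_ne_zero) u hu δ
    (by rw [Polynomial.eval_one, div_one]; exact he) 1 m zero_le_one le_rfl (by positivity)).2 hzi
  have h1 : ∀ a ∈ R, min (pm 1 (ord A 1 a)) (m : ℝ) = (A.rootMultiplicity a : ℝ) := by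
    intro a _
    unfold ord
    have h2 : (1 : Polynomial ℂ).rootMultiplicity a = 0 := by
      rw [Polynomial.rootMultiplicity_eq_zero_iff]
      intro h3
      exact absurd h3.eq_zero (by rw [Polynomial.eval_one]; exact one_ne_zero)
    rw [h2, pm_nat 1 _ 0 (Or.inr rfl)]
    rw [min_eq_left]
    · push_cast
      ring
    · push_cast
      have := hm a
      have h4 : (A.rootMultiplicity a : ℝ) ≤ m := by exact_mod_cast this
      linarith
  rw [Finset.sum_congr rfl h1] at h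
  have e1 : (∑ a ∈ R, (A.rootMultiplicity a : ℝ)) = A.natDegree := by
    rw [← sum_mult A R hRA]
    push_cast
    rfl
  rw [e1] at h
  refine le_trans (le_of_eq ?_) h
  have h3 : ε / m * m = ε := div_mul_cancel₀ _ (by positivity)
  have h4 : (2 * d - 1 + ε / m) * (m : ℝ) = (2 * d - 1) * m + ε := by rw [add_mul, h3]
  rw [h4]
  ring

end Pool.Agent.H594.WI
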