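import Mathlib
import Pool.Agent.H594.WI.One

set_option autoImplicit false
set_option linter.unusedSectionVars false

/-!
# Factors which make the values of several rational functions dependent modulo a group
-/

namespace Pool.Agent.H594.WI

open Finset Module
open Pool.Agent.H594.ML Pool.Agent.H594.KP Pool.Agent.H594.BD
open Pool.Agent.Helper259.AbsHt Pool.Agent.Y215.SK Pool.Agent.Y215.AF

open scoped Classical

/-- values of several rational functions -/
theorem multi_height (Γ : Subgroup Qbarˣ) (hΓ : Γ.FG) (K : IntermediateField ℚ ℂ)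
    [FiniteDimensional ℚ K] (d : ℕ) (hd : 1 ≤ d) {k : ℕ} (A B : Fin k → Polynomial ℂ)
    (hA : ∀ j i, IsAlgebraic ℚ ((A j).coeff i)) (hB : ∀ j i, IsAlgebraic ℚ ((B j).coeff i))
    (hA0 : ∀ j, A j ≠ 0) (hB0 : ∀ j, B j ≠ 0) (ε : ℝ) (hε : 0 < ε) :
    ∃ (R : Finset ℂ) (C : ℝ), 0 ≤ C ∧ (∀ j, ∀ a ∈ (A j).roots, a ∈ R) ∧
      (∀ j, ∀ a ∈ (B j).roots, a ∈ R) ∧
      ∀ z ∈ DegLe K d, (∀ j, (A j).eval z ≠ 0) → (∀ j, (B j).eval z ≠ 0) →
      ∀ (m : Fin k → ℤ) (u : Qbarˣ), u ∈ DivHull Γ → ∀ δ : ℂ,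
      δ * ∏ j, ((A j).eval z / (B j).eval z) ^ m j = sg u →
      ∀ s B' : ℝ, 0 ≤ s → s ≤ 1 → 0 ≤ B' →
      (∑ a ∈ R, min (pm s (∑ j, m j * ord (A j) (B j) a)) B' +
        min (pm s (∑ j, m j * (((B j).natDegree : ℤ) - (A j).natDegree))) B' -
        (2 * d + ε) * B') * ht z - C * B' ≤ ht δ ∧
      (IsIntegral ℤ z → (∑ a ∈ R, min (pm s (∑ j, m j * ord (A j) (B j) a)) B' -
        (2 * d - 1 + ε) * B') * ht z - C * B' ≤ ht δ) := by
  let R : Finset ℂ := (Finset.univ.biUnion fun j => (A j).roots.toFinset) ∪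
    Finset.univ.biUnion fun j => (B j).roots.toFinset
  have hRA : ∀ j a, a ∈ (A j).roots → a ∈ R := fun j a ha =>
    Finset.mem_union_left _ (Finset.mem_biUnion.2 ⟨j, Finset.mem_univ j, Multiset.mem_toFinset.2 ha⟩)
  have hRB : ∀ j a, a ∈ (B j).roots → a ∈ R := fun j a ha =>
    Finset.mem_union_right _ (Finset.mem_biUnion.2 ⟨j, Finset.mem_univ j, Multiset.mem_toFinset.2 ha⟩)
  have hR : ∀ a ∈ R, IsAlgebraic ℚ a := by
    intro a ha
    rcases Finset.mem_union.1 ha with h | h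
    · obtain ⟨j, -, hj⟩ := Finset.mem_biUnion.1 h
      exact root_alg (hA j) (Multiset.mem_toFinset.1 hj)
    · obtain ⟨j, -, hj⟩ := Finset.mem_biUnion.1 h
      exact root_alg (hB j) (Multiset.mem_toFinset.1 hj)
  have hc : ∀ j, ∃ u : Qbarˣ, (A j).leadingCoeff / (B j).leadingCoeff = sg u := fun j =>
    exists_unit (by
      rw [div_eq_mul_inv]
      exact (hA j _).mul (hB j _).inv)
      (div_ne_zero (Polynomial.leadingCoeff_ne_zero.2 (hA0 j))
        (Polynomial.leadingCoeff_ne_zero.2 (hB0 j)))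
  choose c hc using hc
  let Γ2 : Subgroup Qbarˣ := Γ ⊔ Subgroup.closure (Set.range c)
  have hΓ2 : Γ2.FG := Subgroup.FG.sup hΓ
    ((Subgroup.fg_iff _).2 ⟨Set.range c, rfl, Set.finite_range c⟩)
  have hcΓ : ∀ j, c j ∈ Γ2 := fun j =>
    Subgroup.mem_sup_right (Subgroup.subset_closure ⟨j, rfl⟩)
  obtain ⟨C, hC0, hC⟩ := cx_height Γ2 hΓ2 K d hd R hR ε hε
  refine ⟨R, C, hC0, hRA, hRB, ?_⟩
  intro z hz hAz hBz m u hu δ he s B' hs0 hs1 hB'
  have hzR : ∀ a ∈ R, z ≠ a := by
    rintro a ha rfl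
    rcases Finset.mem_union.1 ha with h | h
    · obtain ⟨j, -, hj⟩ := Finset.mem_biUnion.1 h
      exact hAz j ((Polynomial.mem_roots (hA0 j)).1 (Multiset.mem_toFinset.1 hj))
    · obtain ⟨j, -, hj⟩ := Finset.mem_biUnion.1 h
      exact hBz j ((Polynomial.mem_roots (hB0 j)).1 (Multiset.mem_toFinset.1 hj))
  have hq := eval_quot A B R hRA hRB m z hzR
  let μ : ℂ → ℤ := fun a => ∑ j, m j * ord (A j) (B j) a
  have hsum : ∑ a ∈ R, μ a = ∑ j, m j * (((A j).natDegree : ℤ) - (B j).natDegree) := by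
    show ∑ a ∈ R, ∑ j, m j * ord (A j) (B j) a = _
    rw [Finset.sum_comm]
    refine Finset.sum_congr rfl fun j _ => ?_
    rw [← Finset.mul_sum, ← sum_mult (A j) R (hRA j), ← sum_mult (B j) R (hRB j)]
    unfold ord
    rw [Finset.sum_sub_distrib]
    push_cast
    rfl
  have hu2 : u * ∏ j, c j ^ (-m j) ∈ DivHull Γ2 := by
    refine (divGroup Γ2).mul_mem ?_ ((divGroup Γ2).prod_mem fun j _ =>
      (divGroup Γ2).zpow_mem (sub_hull _ _ (hcΓ j)) _)
    obtain ⟨n, hn, hun⟩ := hu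
    exact ⟨n, hn, Subgroup.mem_sup_left hun⟩
  have hc0 : ∀ j, sg (c j) ≠ 0 := fun j => (map_ne_zero sg).2 (c j).ne_zero
  have hP0 : ∏ j, sg (c j) ^ m j ≠ 0 := Finset.prod_ne_zero_iff.2 fun j _ => zpow_ne_zero _ (hc0 j)
  have he2 : δ * ∏ a ∈ R, (z - a) ^ μ a = sg (u * ∏ j, c j ^ (-m j) : Qbarˣ) := by
    have h1 : sg ((∏ j, c j ^ (-m j) : Qbarˣ) : Qbar) = (∏ j, sg (c j) ^ m j)⁻¹ := by
      rw [Units.coe_prod, map_prod, ← Finset.prod_inv_distrib]
      refine Finset.prod_congr rfl fun j _ => ?_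
      rw [Units.val_zpow_eq_zpow_val, map_zpow₀, zpow_neg]
    rw [Units.val_mul, map_mul, h1, ← he, hq]
    simp only [hc]
    show δ * ∏ a ∈ R, (z - a) ^ (∑ j, m j * ord (A j) (B j) a) = _
    field_simp
  have h := hC z hz hzR μ (u * ∏ j, c j ^ (-m j)) hu2 δ he2 s B' hs0 hs1 hB'
  rw [hsum] at h
  have e : -(∑ j, m j * (((A j).natDegree : ℤ) - (B j).natDegree)) =
      ∑ j, m j * (((B j).natDegree : ℤ) - (A j).natDegree) := by
    rw [← Finset.sum_neg_distrib]
    exact Finset.sum_congr rfl fun j _ => by ring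
  rw [e] at h
  exact h

/-- heights of products of powers -/
theorem ht_prod {k : ℕ} (δ : Fin k → ℂ) (hδ : ∀ j, IsAlgebraic ℚ (δ j)) (m : Fin k → ℤ) :
    ht (∏ j, δ j ^ m j) ≤ ∑ j, |(m j : ℝ)| * ht (δ j) := by
  choose y hy using fun j => exists_sg (hδ j)
  have e1 : ∏ j, δ j ^ m j = sg (∏ j, y j ^ m j) := by
    rw [map_prod]
    exact Finset.prod_congr rfl fun j _ => by rw [map_zpow₀, hy]
  have e2 : ∀ j, ht (δ j) = h1 (y j) := fun j => by rw [← hy, ht_sg]
  rw [e1, ht_sg]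
  refine (h1_prod_le _ _).trans ?_
  refine Finset.sum_le_sum fun j _ => ?_
  rw [e2, h1_zpow]

theorem pm_half (x : ℤ) : pm (1 / 2) x = |(x : ℝ)| / 2 := by
  unfold pm
  rcases le_total 0 (x : ℝ) with h | h
  · rw [max_eq_right h, max_eq_left (by linarith), abs_of_nonneg h]
    ring
  · rw [max_eq_left h, max_eq_right (by linarith), abs_of_nonpos h]
    ring

/-- **Values of several rational functions without common zeros and poles.** -/
theorem sqf_height (Γ : Subgroup Qbarˣ) (hΓ : Γ.FG) (K : IntermediateField ℚ ℂ)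
    [FiniteDimensional ℚ K] (d : ℕ) (hd : 1 ≤ d) {k : ℕ} (A B : Fin k → Polynomial ℂ)
    (hA : ∀ j i, IsAlgebraic ℚ ((A j).coeff i)) (hB : ∀ j i, IsAlgebraic ℚ ((B j).coeff i))
    (hA0 : ∀ j, A j ≠ 0) (hB0 : ∀ j, B j ≠ 0)
    (hdis : ∀ a, ∑ j, ((A j).rootMultiplicity a + (B j).rootMultiplicity a) ≤ 1)
    (N : ℕ) (hN : ∀ j, N ≤ (A j).natDegree + (B j).natDegree) (ε : ℝ) (hε : 0 < ε) :
    ∃ C : ℝ, 0 ≤ C ∧
      ∀ z ∈ DegLe K d, (∀ j, (A j).eval z ≠ 0) → (∀ j, (B j).eval z ≠ 0) →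
      ∀ (m : Fin k → ℤ), m ≠ 0 → ∀ (u : Qbarˣ), u ∈ DivHull Γ → ∀ (δ : Fin k → ℂ),
      (∀ j, IsAlgebraic ℚ (δ j)) → ∀ H : ℝ, (∀ j, ht (δ j) ≤ H) →
      ∏ j, (δ j * ((A j).eval z / (B j).eval z)) ^ m j = sg u →
      (((N : ℝ) - 2 * d) / 2 - ε) * ht z - C ≤ H ∧
      (IsIntegral ℤ z → (((N : ℝ) - (2 * d - 1)) / 2 - ε) * ht z - C ≤ H) := by
  obtain ⟨R, C, hC0, hRA, hRB, hC⟩ := multi_height Γ hΓ K d hd A B hA hB hA0 hB0 (2 * ε)
    (by positivity)
  refine ⟨C / 2, by positivity, ?_⟩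
  intro z hz hAz hBz m hm u hu δ hδ H hH he
  -- the maximum of the exponents
  obtain ⟨j₁, hj₁⟩ : ∃ j, m j ≠ 0 := by
    by_contra h
    push Not at h
    exact hm (funext h)
  obtain ⟨j₀, -, hj₀⟩ := Finset.exists_max_image (Finset.univ : Finset (Fin k))
    (fun j => |(m j : ℝ)|) ⟨j₁, Finset.mem_univ _⟩
  set M : ℝ := |(m j₀ : ℝ)| with hM
  have hMle : ∀ j, |(m j : ℝ)| ≤ M := fun j => hj₀ j (Finset.mem_univ j)
  have hM1 : 1 ≤ M := by
    refine le_trans ?_ (hMle j₁)
    have h1 : 1 ≤ |m j₁| := Int.one_le_abs hj₁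
    exact_mod_cast h1
  set L : ℝ := ∑ j, |(m j : ℝ)| with hL
  have hML : M ≤ L := Finset.single_le_sum (f := fun j => |(m j : ℝ)|) (fun j _ => abs_nonneg _)
    (Finset.mem_univ j₀)
  have hL0 : 0 < L := by linarith
  -- heights of the factor
  have hht : ht (∏ j, δ j ^ m j) ≤ L * H := by
    refine (ht_prod δ hδ m).trans ?_
    rw [hL, Finset.sum_mul]
    exact Finset.sum_le_sum fun j _ => mul_le_mul_of_nonneg_left (hH j) (abs_nonneg _)
  have he' : (∏ j, δ j ^ m j) * ∏ j, ((A j).eval z / (B j).eval z) ^ m j = sg u := by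
    rw [← he, ← Finset.prod_mul_distrib]
    exact Finset.prod_congr rfl fun j _ => (mul_zpow _ _ _).symm
  obtain ⟨h1, h2⟩ := hC z hz hAz hBz m u hu _ he' (1 / 2) (M / 2) (by norm_num) (by norm_num)
    (by linarith)
  -- the sum over the zeros and poles
  have habs : ∀ a, |((∑ j, m j * ord (A j) (B j) a : ℤ) : ℝ)| =
      ∑ j, |(m j : ℝ)| * (((A j).rootMultiplicity a + (B j).rootMultiplicity a : ℕ) : ℝ) ∧
      |((∑ j, m j * ord (A j) (B j) a : ℤ) : ℝ)| ≤ M := by
    intro a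
    by_cases hall : ∀ j, (A j).rootMultiplicity a + (B j).rootMultiplicity a = 0
    · have h3 : ∀ j, ord (A j) (B j) a = 0 := by
        intro j
        have h4 := hall j
        unfold ord
        omega
      constructor
      · simp [h3, hall]
      · simp only [h3, mul_zero, Finset.sum_const_zero, Int.cast_zero, abs_zero]
        linarith
    · push Not at hall
      obtain ⟨i, hi⟩ := hall
      have hle := hdis a
      rw [← Finset.add_sum_erase _ _ (Finset.mem_univ i)] at hle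
      have hi1 : (A i).rootMultiplicity a + (B i).rootMultiplicity a = 1 := by omega
      have hother : ∀ j, j ≠ i → (A j).rootMultiplicity a + (B j).rootMultiplicity a = 0 := by
        intro j hj
        have h3 : ∑ j ∈ Finset.univ.erase i,
            ((A j).rootMultiplicity a + (B j).rootMultiplicity a) = 0 := by omega
        exact Finset.sum_eq_zero_iff.1 h3 j (Finset.mem_erase.2 ⟨hj, Finset.mem_univ j⟩)
      have hord : ∀ j, j ≠ i → ord (A j) (B j) a = 0 := by
        intro j hj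
        have h4 := hother j hj
        unfold ord
        omega
      have hordi : |(ord (A i) (B i) a : ℝ)| = 1 := by
        have h4 : ord (A i) (B i) a = 1 ∨ ord (A i) (B i) a = -1 := by
          unfold ord
          omega
        rcases h4 with h4 | h4
        · rw [h4]
          norm_num
        · rw [h4]
          norm_num
      have e1 : ∑ j, m j * ord (A j) (B j) a = m i * ord (A i) (B i) a := by
        rw [Finset.sum_eq_single i]
        · intro j _ hj
          rw [hord j hj, mul_zero]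
        · intro h
          exact absurd (Finset.mem_univ i) h
      have e2 : ∑ j, |(m j : ℝ)| * (((A j).rootMultiplicity a + (B j).rootMultiplicity a : ℕ) : ℝ) =
          |(m i : ℝ)| := by
        rw [Finset.sum_eq_single i]
        · rw [hi1]
          push_cast
          ring
        · intro j _ hj
          rw [hother j hj]
          push_cast
          ring
        · intro h
          exact absurd (Finset.mem_univ i) h
      rw [e1, e2]
      push_cast
      rw [abs_mul, hordi, mul_one]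
      exact ⟨rfl, hMle i⟩
  have hS : ∑ a ∈ R, min (pm (1 / 2) (∑ j, m j * ord (A j) (B j) a)) (M / 2) =
      (∑ j, |(m j : ℝ)| * (((A j).natDegree : ℝ) + (B j).natDegree)) / 2 := by
    have h3 : ∀ a ∈ R, min (pm (1 / 2) (∑ j, m j * ord (A j) (B j) a)) (M / 2) =
        (∑ j, |(m j : ℝ)| *
          (((A j).rootMultiplicity a + (B j).rootMultiplicity a : ℕ) : ℝ)) / 2 := by
      intro a _
      rw [pm_half, min_eq_left (by linarith [(habs a).2]), (habs a).1]
    rw [Finset.sum_congr rfl h3, ← Finset.sum_div, Finset.sum_comm]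
    congr 1
    refine Finset.sum_congr rfl fun j _ => ?_
    rw [← Finset.mul_sum]
    congr 1
    have h4 := sum_mult (A j) R (hRA j)
    have h5 := sum_mult (B j) R (hRB j)
    rw [← h4, ← h5]
    push_cast
    rw [Finset.sum_add_distrib]
  have hNL : (N : ℝ) * L ≤ ∑ j, |(m j : ℝ)| * (((A j).natDegree : ℝ) + (B j).natDegree) := by
    rw [hL, Finset.mul_sum]
    refine Finset.sum_le_sum fun j _ => ?_
    rw [mul_comm]
    refine mul_le_mul_of_nonneg_left ?_ (abs_nonneg _)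
    exact_mod_cast hN j
  have hz0 : 0 ≤ ht z := ht_nonneg z
  have hpm0 : 0 ≤ min (pm (1 / 2) (∑ j, m j * (((B j).natDegree : ℤ) - (A j).natDegree)))
      (M / 2) := by
    refine le_min ?_ (by linarith)
    rw [pm_half]
    positivity
  rw [hS] at h1 h2
  set S : ℝ := ∑ j, |(m j : ℝ)| * (((A j).natDegree : ℝ) + (B j).natDegree) with hSdef
  have hSN : (N : ℝ) * L * ht z ≤ S * ht z := mul_le_mul_of_nonneg_right hNL hz0
  have key : ∀ T : ℝ, 0 ≤ T → (S / 2 - T * (M / 2)) * ht z - C * (M / 2) ≤ L * H →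
      (((N : ℝ) - T) / 2) * ht z - C / 2 ≤ H := by
    intro T hT h3
    have h4 : T * M * ht z ≤ T * L * ht z :=
      mul_le_mul_of_nonneg_right (mul_le_mul_of_nonneg_left hML hT) hz0
    have h5 : C * M ≤ C * L := mul_le_mul_of_nonneg_left hML hC0
    have h6 : L * ((((N : ℝ) - T) / 2) * ht z - C / 2) ≤ L * H := by
      have e1 : L * ((((N : ℝ) - T) / 2) * ht z - C / 2) =
          (N * L * ht z - T * L * ht z - C * L) / 2 := by ring
      rw [e1]
      have e2 : (S / 2 - T * (M / 2)) * ht z - C * (M / 2) =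
          (S * ht z - T * M * ht z - C * M) / 2 := by ring
      rw [e2] at h3
      linarith
    exact le_of_mul_le_mul_left h6 hL0
  have hd1 : (1 : ℝ) ≤ d := by exact_mod_cast hd
  constructor
  · have h3 := key (2 * d + 2 * ε) (by positivity) (by
      refine le_trans ?_ (h1.trans hht)
      have h4 := mul_nonneg hpm0 hz0
      linarith)
    refine le_trans (le_of_eq ?_) h3
    ring
  · intro hzi
    have h3 := key (2 * d - 1 + 2 * ε) (by linarith) (by
      refine le_trans ?_ ((h2 hzi).trans hht)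
      exact le_of_eq (by ring))
    refine le_trans (le_of_eq ?_) h3
    ring

end Pool.Agent.H594.WI
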